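import Pool.Agent.P.MP_042d8e_al.Upper

/-! Classes of normal T-sequences correspond to compatible systems of subgroups. -/

set_option autoImplicit false

namespace Pool.Agent.P.MP_042d8e_al

open Cardinal

variable {G : Type} [Group G]

theorem finiteIndex_of_fun {F : Type} [Finite F] {H : Subgroup G} (f : G → F)
    (h : ∀ a b, f a = f b → a⁻¹ * b ∈ H) : H.FiniteIndex := by
  have : Finite (G ⧸ H) := by
    refine Finite.of_injective (fun c : G ⧸ H => f c.out) fun c c' hc => ?_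
    rw [← c.out_eq, ← c'.out_eq]
    exact QuotientGroup.eq.2 (h _ _ hc)
  exact Subgroup.finiteIndex_of_finite_quotient

/-- two filtrations as in a branch group -/
structure Fil (St R : ℕ → Subgroup G) : Prop where
  sa : Antitone St
  sb : ∀ g, (∀ n, g ∈ St n) → g = 1
  ra : Antitone R
  rn : ∀ n, (R n).Normal
  rf : ∀ n, (R n).FiniteIndex
  rs : ∀ n, R n ≤ St n
  r0 : ∀ n, R n ≠ ⊥
  key : ∀ M : Subgroup G, M.Normal → ∀ n, ¬ M ≤ St n → R n ≤ M

/-- compatible systems -/
def Sys (St R : ℕ → Subgroup G) : Type :=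
  {U : ℕ → Subgroup G // (∀ n, (U n).Normal ∧ R n ≤ U n ∧ U n ≤ St n) ∧ ∀ n, U (n + 1) ⊔ R n = U n}

variable {St R : ℕ → Subgroup G}

theorem Sys.sup (h : Fil St R) (U : Sys St R) {n m : ℕ} (hm : n ≤ m) : U.1 m ⊔ R n = U.1 n := by
  induction m, hm using Nat.le_induction with
  | base => exact sup_eq_left.2 (U.2.1 n).2.1
  | succ m hm ih => rw [← ih, ← U.2.2 m, sup_assoc, sup_eq_right.2 (h.ra hm)]

theorem Sys.anti (U : Sys St R) : Antitone U.1 :=
  antitone_nat_of_succ_le fun n => U.2.2 n ▸ le_sup_left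

theorem Fil.not_le (h : Fil St R) {M : Subgroup G} (hM : M.FiniteIndex) : ∃ m, ¬ M ≤ St m := by
  by_contra hh
  push Not at hh
  have hb : M = ⊥ := eq_bot_iff.2 fun g hg => h.sb g fun n => hh n hg
  subst hb
  have : Finite G := Nat.finite_of_card_ne_zero (by simpa using hM.index_ne_zero)
  have h1 : ∀ g : G, ∃ n, g ∈ St n → g = 1 := fun g => by
    by_contra h2
    push Not at h2
    exact (h2 0).2 (h.sb g fun n => (h2 n).1)
  choose f hf using h1
  obtain ⟨N, hN⟩ := (Set.finite_range f).bddAbove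
  exact h.r0 N (eq_bot_iff.2 fun g hg => hf g (h.sa (hN ⟨g, rfl⟩) (h.rs N hg)))

theorem stab {M : ℕ → Subgroup G} (hM : Antitone M) {H : Subgroup G} (hH : H.FiniteIndex)
    (hle : ∀ i, H ≤ M i) : ∃ i, ∀ j, i ≤ j → M j = M i := by
  have hb : BddAbove (Set.range fun i => (M i).index) :=
    ⟨H.index, by rintro _ ⟨i, rfl⟩; exact Subgroup.index_antitone (hle i)⟩
  obtain ⟨i, hi⟩ := Nat.sSup_mem (Set.range_nonempty _) hb
  refine ⟨i, fun j hj => ?_⟩
  have := Subgroup.finiteIndex_of_le (hle j)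
  have h1 : (M j).index ≤ (M i).index := by
    have := le_csSup hb ⟨j, rfl⟩
    rwa [← hi] at this
  have h2 := Subgroup.relIndex_mul_index (hM hj)
  have h3 : (M j).index ≠ 0 := this.index_ne_zero
  have h4 : (M j).relIndex (M i) = 1 := by
    rcases Nat.lt_trichotomy ((M j).relIndex (M i)) 1 with h5 | h5 | h5
    · rw [Nat.lt_one_iff.1 h5] at h2; omega
    · exact h5
    · have : 2 * (M i).index ≤ (M j).index := h2 ▸ Nat.mul_le_mul_right _ h5
      omega
  exact le_antisymm (hM hj) (Subgroup.relIndex_eq_one.1 h4)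

theorem Fil.num (h : Fil St R) : numClasses G = #(Sys St R) := by
  let φ : Sys St R → NT G := fun U => ⟨U.1, U.anti, fun n => ⟨(U.2.1 n).1, by
    have := h.rf n
    exact Subgroup.finiteIndex_of_le (U.2.1 n).2.1⟩,
    eq_bot_iff.2 fun g hg => h.sb g fun n => (U.2.1 n).2.2 (Subgroup.mem_iInf.1 hg n)⟩
  have hle : ∀ U U' : Sys St R, (∀ i, ∃ j, U'.1 j ≤ U.1 i) → ∀ n, U'.1 n ≤ U.1 n := by
    intro U U' hh n
    obtain ⟨j, hj⟩ := hh n
    rw [← U'.sup h (le_max_left n j)]
    exact sup_le ((U'.anti (le_max_right _ _)).trans hj) (U.2.1 n).2.1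
  refine (Cardinal.mk_congr (Equiv.ofBijective (fun U => Quotient.mk (eqvNT G) (φ U)) ⟨?_, ?_⟩)).symm
  · intro U U' hh
    obtain ⟨h1, h2⟩ := Quotient.exact hh
    exact Subtype.ext (funext fun n => le_antisymm (hle _ _ h2 n) (hle _ _ h1 n))
  · rintro ⟨M, hM, hn, hb⟩
    have hA : ∀ n, ∃ i, M i ≤ St n := by
      intro n
      by_contra hh
      push Not at hh
      exact h.r0 n (eq_bot_iff.2 (hb ▸ le_iInf fun i => h.key _ (hn i).1 n (hh i)))
    have hC : ∀ n, ∃ i, M i ≤ St n ∧ ∀ j, i ≤ j → M j ⊔ R n = ⨅ k, M k ⊔ R n := by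
      intro n
      have ha : Antitone fun i => M i ⊔ R n := fun a b hab => sup_le_sup_right (hM hab) _
      obtain ⟨i, hi⟩ := stab ha (h.rf n) fun i => le_sup_right
      obtain ⟨k, hk⟩ := hA n
      refine ⟨max i k, (hM (le_max_right _ _)).trans hk, fun j hj => ?_⟩
      refine le_antisymm (le_iInf fun l => ?_) (iInf_le _ j)
      have h1 := hi j ((le_max_left _ _).trans hj)
      have h2 := hi _ (le_max_left i l)
      exact (h1.trans h2.symm).le.trans (ha (le_max_right _ _))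
    choose f hf hf' using hC
    refine ⟨⟨fun n => ⨅ k, M k ⊔ R n, fun n => ?_, fun n => ?_⟩, Quotient.sound ⟨fun n => ?_, fun i => ?_⟩⟩
    · beta_reduce
      rw [← hf' n _ le_rfl]
      have := (hn (f n)).1
      have := h.rn n
      exact ⟨inferInstance, le_sup_right, sup_le (hf n) (h.rs n)⟩
    · beta_reduce
      rw [← hf' n _ (le_max_left _ (f (n + 1))), ← hf' (n + 1) _ (le_max_right (f n) _), sup_assoc,
        sup_eq_right.2 (h.ra (Nat.le_succ n))]
    · exact ⟨f n, le_sup_left.trans (hf' n _ le_rfl).le⟩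
    · obtain ⟨m, hm⟩ := h.not_le (hn i).2
      exact ⟨m, (iInf_le _ i).trans (sup_le le_rfl (h.key _ (hn i).1 m hm))⟩

end Pool.Agent.P.MP_042d8e_al
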