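import Pool.Agent.P.MP_042d8e_al.Abs

/-! The iterated wreath product as a group of portraits. Words are read from the right. -/

set_option autoImplicit false
set_option linter.unusedSectionVars false

open scoped commutatorElement

namespace Pool.Agent.P.MP_042d8e_al

/-- portraits: a label at every vertex -/
def Po (X S : Type) : Type := List X → S

variable {X S : Type} [Group S] [MulAction S X]

namespace Po

def act (g : Po X S) : List X → List X
  | [] => []
  | x :: v => (g v • x) :: act g v

def iact (g : Po X S) : List X → List X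
  | [] => []
  | x :: w => ((g (iact g w))⁻¹ • x) :: iact g w

theorem iact_act (g : Po X S) : ∀ v, iact g (act g v) = v
  | [] => rfl
  | x :: v => by simp [act, iact, iact_act g v]

instance : Mul (Po X S) := ⟨fun g h v => g (act h v) * h v⟩
instance : One (Po X S) := ⟨fun _ => 1⟩
instance : Inv (Po X S) := ⟨fun g w => (g (iact g w))⁻¹⟩

theorem act_mul (g h : Po X S) : ∀ v, act (g * h) v = act g (act h v)
  | [] => rfl
  | x :: v => by
    have : (g * h) v = g (act h v) * h v := rfl
    simp [act, act_mul g h v, this, mul_smul]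

theorem act_one : ∀ v, act (1 : Po X S) v = v
  | [] => rfl
  | x :: v => by
    have : (1 : Po X S) v = 1 := rfl
    simp [act, act_one v, this]

instance : Group (Po X S) := Group.ofLeftAxioms
  (fun a b c => funext fun v => by
    change (a (act b (act c v)) * b (act c v)) * c v = a (act (b * c) v) * (b (act c v) * c v)
    rw [act_mul, mul_assoc])
  (fun a => funext fun v => one_mul _)
  (fun a => funext fun v => by
    change (a (iact a (act a v)))⁻¹ * a v = 1
    rw [iact_act, inv_mul_cancel])

instance : MulAction (Po X S) (List X) where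
  smul := act
  one_smul := act_one
  mul_smul := act_mul

theorem mul_app (g h : Po X S) (v : List X) : (g * h) v = g (h • v) * h v := rfl
@[simp] theorem one_app (v : List X) : (1 : Po X S) v = 1 := rfl
@[simp] theorem smul_nil (g : Po X S) : g • ([] : List X) = [] := rfl
@[simp] theorem smul_cons (g : Po X S) (x : X) (v : List X) : g • (x :: v) = (g v • x) :: g • v := rfl

theorem inv_app (g : Po X S) (v : List X) : g⁻¹ (g • v) = (g v)⁻¹ := by
  rw [eq_inv_iff_mul_eq_one, ← mul_app, inv_mul_cancel, one_app]

@[simp] theorem len (g : Po X S) : ∀ v : List X, (g • v).length = v.length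
  | [] => rfl
  | x :: v => by simp [len g v]

/-- section at a vertex -/
def sec (g : Po X S) (u : List X) : Po X S := fun w => g (w ++ u)

theorem smul_append (g : Po X S) (u : List X) : ∀ w : List X, g • (w ++ u) = sec g u • w ++ g • u
  | [] => rfl
  | x :: w => by simp [smul_append g u w, sec]

theorem sec_mul (g h : Po X S) (u : List X) : sec (g * h) u = sec g (h • u) * sec h u :=
  funext fun w => by simp only [sec, mul_app, smul_append]

@[simp] theorem sec_one (u : List X) : sec (1 : Po X S) u = 1 := rfl
@[simp] theorem sec_nil (g : Po X S) : sec g [] = g := funext fun w => by simp [sec]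

theorem sec_inv (g : Po X S) (u : List X) : sec g⁻¹ (g • u) = (sec g u)⁻¹ := by
  rw [eq_inv_iff_mul_eq_one, ← sec_mul, inv_mul_cancel, sec_one]

theorem sec_sec (g : Po X S) (u w : List X) : sec (sec g u) w = sec g (w ++ u) :=
  funext fun v => by simp [sec]

theorem sec_cons (g : Po X S) (x : X) (u : List X) : sec g (x :: u) = sec (sec g u) [x] := by
  rw [sec_sec]; rfl

theorem sec_conj (a g : Po X S) {u : List X} (h : g • u = u) :
    sec (a * g * a⁻¹) (a • u) = sec a u * sec g u * (sec a u)⁻¹ := by
  rw [sec_mul, sec_mul, inv_smul_smul, h, sec_inv]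

theorem smul_suffix (g : Po X S) {u v : List X} (h : u <:+ v) : g • u <:+ g • v := by
  obtain ⟨w, rfl⟩ := h
  exact ⟨_, (smul_append g u w).symm⟩

theorem smul_congr {a b : Po X S} :
    ∀ v : List X, (∀ w : List X, w.length < v.length → a w = b w) → a • v = b • v
  | [], _ => rfl
  | x :: v, h => by
    rw [smul_cons, smul_cons, h v (by simp), smul_congr v fun w hw => h w (by simp; omega)]

/-- level stabilisers -/
def St (n : ℕ) : Subgroup (Po X S) where
  carrier := {g | ∀ v : List X, v.length < n → g v = 1}
  one_mem' _ _ := rfl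
  mul_mem' {a b} ha hb v hv := by rw [mul_app, hb v hv, ha _ (by simpa using hv), mul_one]
  inv_mem' {a} ha v hv := by
    rw [← smul_inv_smul a v, inv_app, ha _ (by simpa using hv), inv_one]

theorem St_fix {n : ℕ} {g : Po X S} (h : g ∈ St n) {v : List X} (hv : v.length ≤ n) : g • v = v := by
  rw [smul_congr (b := 1) v fun w hw => h w (by omega), one_smul]

theorem St_anti {n m : ℕ} (h : n ≤ m) : (St m : Subgroup (Po X S)) ≤ St n :=
  fun _ hg v hv => hg v (by omega)

theorem inv_mul_mem_St {n : ℕ} {a b : Po X S} (h : ∀ v : List X, v.length < n → a v = b v) :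
    a⁻¹ * b ∈ St n := fun v hv => by
  rw [mul_app, ← smul_congr (a := a) v fun w hw => h w (by omega), inv_app, h v hv, inv_mul_cancel]

instance St_normal (n : ℕ) : (St n : Subgroup (Po X S)).Normal := ⟨fun g hg a => by
  have h1 : ∀ v : List X, v.length < n → (a * g) v = a v := fun v hv => by
    rw [mul_app, hg v hv, St_fix hg hv.le, mul_one]
  intro v hv
  rw [mul_app, h1 _ (by simpa using hv), ← mul_app, mul_inv_cancel, one_app]⟩

theorem sec_mul_St {n : ℕ} (g : Po X S) {h : Po X S} (hh : h ∈ St n) {u : List X}
    (hu : u.length ≤ n) : sec (g * h) u = sec g u * sec h u := by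
  rw [sec_mul, St_fix hh hu]

theorem sec_inv_St {n : ℕ} {g : Po X S} (hg : g ∈ St n) {u : List X} (hu : u.length ≤ n) :
    sec g⁻¹ u = (sec g u)⁻¹ := by
  rw [← sec_inv, St_fix hg hu]

theorem sec_St {n k : ℕ} {g : Po X S} {u : List X} (hg : g ∈ St n) (h : u.length + k ≤ n) :
    sec g u ∈ St k := fun w hw => hg _ (by simp; omega)

theorem exists_split {n : ℕ} {v : List X} (h : n ≤ v.length) :
    ∃ w u : List X, u.length = n ∧ v = w ++ u :=
  ⟨v.take (v.length - n), v.drop (v.length - n), by simp; omega, by simp⟩

theorem ext_lev {a b : Po X S} (n : ℕ) (h1 : ∀ v : List X, v.length < n → a v = b v)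
    (h2 : ∀ u : List X, u.length = n → sec a u = sec b u) : a = b := by
  funext v
  rcases lt_or_ge v.length n with h | h
  · exact h1 v h
  · obtain ⟨w, u, hu, rfl⟩ := exists_split h
    exact congrFun (h2 u hu) w

theorem ext_St {n : ℕ} {a b : Po X S} (ha : a ∈ St n) (hb : b ∈ St n)
    (h2 : ∀ u : List X, u.length = n → sec a u = sec b u) : a = b :=
  ext_lev n (fun v hv => (ha v hv).trans (hb v hv).symm) h2

theorem ext_St1 {a b : Po X S} (ha : a ∈ St 1) (hb : b ∈ St 1)
    (h2 : ∀ x : X, sec a [x] = sec b [x]) : a = b :=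
  ext_St ha hb fun u hu => by
    obtain ⟨x, rfl⟩ := List.length_eq_one_iff.1 hu
    exact h2 x

/-- the element of the level stabiliser with prescribed sections -/
def asm (n : ℕ) (f : List X → Po X S) : Po X S := fun v =>
  if n ≤ v.length then f (v.drop (v.length - n)) (v.take (v.length - n)) else 1

theorem asm_St (n : ℕ) (f : List X → Po X S) : asm n f ∈ St n := fun v hv => if_neg (by omega)

theorem sec_asm {n : ℕ} (f : List X → Po X S) {u : List X} (h : u.length = n) :
    sec (asm n f) u = f u := funext fun w => by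
  simp [sec, asm, h]

open Classical in
/-- a copy of the whole group below a vertex -/
noncomputable def loc (u : List X) : Po X S →* Po X S :=
  MonoidHom.mk' (fun k => asm u.length fun u' => if u' = u then k else 1) fun a b =>
    ext_St (asm_St _ _) (mul_mem (asm_St _ _) (asm_St _ _)) fun u' hu' => by
      rw [sec_mul_St _ (asm_St _ _) hu'.le, sec_asm _ hu', sec_asm _ hu', sec_asm _ hu']
      split_ifs <;> simp

open Classical in
theorem loc_def (u : List X) (k : Po X S) :
    loc u k = asm u.length fun u' => if u' = u then k else 1 := rfl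

theorem loc_St (u : List X) (k : Po X S) : loc u k ∈ St u.length := loc_def u k ▸ asm_St _ _

@[simp] theorem sec_loc (u : List X) (k : Po X S) : sec (loc u k) u = k := by
  rw [loc_def, sec_asm _ rfl, if_pos rfl]

theorem sec_loc_ne {u u' : List X} (k : Po X S) (h : u'.length = u.length) (hne : u' ≠ u) :
    sec (loc u k) u' = 1 := by rw [loc_def, sec_asm _ h, if_neg hne]

theorem loc_app {u v : List X} (k : Po X S) (h : ¬ u <:+ v) : loc u k v = 1 := by
  rcases lt_or_ge v.length u.length with h1 | h1
  · exact loc_St u k v h1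
  · obtain ⟨w, u', hu, rfl⟩ := exists_split h1
    exact congrFun (sec_loc_ne k hu fun hh => h ⟨w, by rw [hh]⟩) w

theorem loc_fix {u : List X} (k : Po X S) : ∀ v : List X, ¬ u <:+ v → loc u k • v = v
  | [], _ => rfl
  | x :: v, h => by
    have h1 : ¬ u <:+ v := fun hh => h (hh.trans (List.suffix_cons x v))
    rw [smul_cons, loc_app k h1, loc_fix k v h1, one_smul]

theorem loc_St' {u : List X} {k : Po X S} {m : ℕ} (h : k ∈ St m) : loc u k ∈ St (u.length + m) := by
  intro v hv
  by_cases hh : u <:+ v
  · obtain ⟨w, rfl⟩ := hh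
    exact (congrFun (sec_loc u k) w).trans (h w (by simp at hv; omega))
  · exact loc_app k hh

theorem loc_nil (k : Po X S) : loc [] k = k := (sec_nil _).symm.trans (sec_loc [] k)

theorem loc_cons (x : X) (u : List X) (k : Po X S) : loc (x :: u) k = loc u (loc [x] k) := by
  refine ext_St (loc_St _ _) (loc_St' (loc_St [x] k)) fun v hv => ?_
  obtain ⟨y, w, rfl⟩ := List.exists_cons_of_length_eq_add_one hv
  by_cases h1 : w = u
  · subst h1
    rw [sec_cons (loc w _), sec_loc]
    by_cases h2 : y = x
    · rw [h2, sec_loc, sec_loc]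
    · rw [sec_loc_ne k (by simp) (by simpa using h2), sec_loc_ne k (by simp) (by simpa using h2)]
  · rw [sec_cons (loc u _), sec_loc_ne _ (by simpa using hv) h1, sec_one,
      sec_loc_ne k hv (by simp [h1])]

theorem conj_loc (a k : Po X S) (u : List X) :
    a * loc u k * a⁻¹ = loc (a • u) (sec a u * k * (sec a u)⁻¹) := by
  refine ext_St (n := u.length) ((St_normal _).conj_mem _ (loc_St u k) a)
    (len a u ▸ loc_St _ _) fun v hv => ?_
  obtain ⟨w, rfl⟩ : ∃ w, v = a • w := ⟨a⁻¹ • v, (smul_inv_smul a v).symm⟩
  rw [len] at hv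
  rw [sec_conj _ _ (St_fix (loc_St u k) hv.le)]
  by_cases h : w = u
  · rw [h, sec_loc, sec_loc]
  · rw [sec_loc_ne k hv h, sec_loc_ne _ (by simpa using hv) (by simpa using h)]
    simp

theorem comm_loc {u : List X} (k : Po X S) {m : Po X S} (hm : m • u = u) :
    ⁅loc u k, m⁆ = loc u ⁅k, sec m u⁆ := by
  have h := conj_loc m k⁻¹ u
  rw [hm] at h
  rw [commutatorElement_def, commutatorElement_def, mul_assoc, mul_assoc, ← mul_assoc m, ← map_inv, h,
    ← map_mul]
  simp only [mul_assoc]

theorem loc_comm {u u' : List X} (k k' : Po X S) (h : u'.length = u.length) (hne : u' ≠ u) :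
    Commute (loc u k) (loc u' k') := by
  rw [← commutatorElement_eq_one_iff_commute, comm_loc k (St_fix (loc_St u' k') h.ge),
    sec_loc_ne k' h.symm hne.symm]
  simp

/-- an element of a level stabiliser is the product of its sections -/
theorem decomp [Finite X] (M : Subgroup (Po X S)) {n : ℕ} {g : Po X S} (hg : g ∈ St n)
    (h : ∀ u : List X, u.length = n → loc u (sec g u) ∈ M) : g ∈ M := by
  have key : ∀ s : Set (List X), s.Finite → (∀ u ∈ s, u.length = n) → ∀ g : Po X S, g ∈ St n →
      (∀ u : List X, u.length = n → u ∉ s → sec g u = 1) → (∀ u ∈ s, loc u (sec g u) ∈ M) →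
      g ∈ M := by
    intro s hs
    induction s, hs using Set.Finite.induction_on with
    | empty =>
      intro _ g hg h1 _
      rw [ext_St hg (one_mem _) fun u hu => h1 u hu (by simp)]
      exact one_mem _
    | @insert a s ha _ ih =>
      intro h0 g hg h1 h2
      have hn := h0 a (by simp)
      have h3 : ∀ u : List X, u.length = n → u ≠ a →
          sec (loc a (sec g a)⁻¹ * g) u = sec g u := fun u hu hne => by
        rw [sec_mul_St _ hg hu.le, sec_loc_ne _ (hu.trans hn.symm) hne, one_mul]
      have h4 := ih (fun u hu => h0 u (by simp [hu])) (loc a (sec g a)⁻¹ * g)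
        (mul_mem (hn ▸ loc_St _ _) hg) (fun u hu hs => by
          by_cases hne : u = a
          · rw [hne, sec_mul_St _ hg hn.le, sec_loc, inv_mul_cancel]
          · rw [h3 u hu hne, h1 u hu (by simp [hne, hs])])
        (fun u hu => by
          rw [h3 u (h0 u (by simp [hu])) fun hh => ha (hh ▸ hu)]
          exact h2 u (by simp [hu]))
      rw [map_inv] at h4
      simpa using mul_mem (h2 a (by simp)) h4
  exact key _ (List.finite_length_eq X n) (fun _ hu => hu) g hg (fun u hu hs => absurd hu hs) h

/-- the commutator trick -/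
theorem grig {M : Subgroup (Po X S)} {g a b : Po X S} {v : List X} (hv : g • v ≠ v)
    (h1 : ⁅⁅loc v a, g⁆, loc v b⁆ ∈ M) : loc v ⁅a, b⁆ ∈ M := by
  have h2 : ⁅loc v a, g⁆ = loc v a * loc (g • v) (sec g v * a⁻¹ * (sec g v)⁻¹) := by
    rw [← conj_loc, commutatorElement_def, map_inv]
    simp only [mul_assoc]
  have h3 := loc_comm b (sec g v * a⁻¹ * (sec g v)⁻¹) (len g v) hv
  rw [h2, commutatorElement_def, mul_inv_rev, mul_assoc (loc v a), ← h3.eq] at h1
  rw [map_commutatorElement, commutatorElement_def]
  simpa only [mul_assoc, mul_inv_cancel_left] using h1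

end Po

end Pool.Agent.P.MP_042d8e_al
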