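import Pool.Agent.P.MP_042d8e_al.Gam

/-! Counting the compatible systems. -/

set_option autoImplicit false
set_option linter.unusedSectionVars false

open scoped commutatorElement

namespace Pool.Agent.P.MP_042d8e_al

open Po Cardinal

variable {X S Q : Type} [Group S] [MulAction S X] [Group Q] [DecidableEq X] [DecidableEq S]
  [Fintype X] [Finite S] [Finite Q]

namespace Dat

variable {D : Dat X S Q}

theorem trunc {n : ℕ} {h : Po X S} (hh : h ∈ St n) :
    ∃ t ∈ D.R n, ∀ v : List X, v.length < n + 1 → t v = h v := by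
  refine ⟨asm n fun u => root (h u), ⟨asm_St _ _, fun u hu => ?_⟩, fun v hv => ?_⟩
  · rw [sec_asm _ hu]; exact root_K' _
  · rcases Nat.lt_succ_iff_lt_or_eq.1 hv with h1 | h1
    · rw [asm_St _ _ v h1, hh v h1]
    · exact congrFun (sec_asm (fun u => root (h u)) h1) []

theorem dense (g : Po X S) (n : ℕ) : ∃ k ∈ D.K, ∀ v : List X, v.length < n → k v = g v := by
  induction n with
  | zero => exact ⟨1, one_mem _, by simp⟩
  | succ n ih =>
    obtain ⟨k, hk, h⟩ := ih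
    have h1 := inv_mul_mem_St h
    obtain ⟨t, ht, h2⟩ := trunc (D := D) h1
    refine ⟨k * t, mul_mem hk (K'_le (R_le n ht)), fun v hv => ?_⟩
    conv_rhs => rw [← mul_inv_cancel_left k g]
    rw [mul_app, mul_app k, St_fix ht.1 (by omega), St_fix h1 (by omega), h2 v hv]

/-- the finite case -/
theorem num_fin (hσ : D.σ = 1) : numClasses D.Gam = #{P : Subgroup Q // P.Normal} := by
  obtain ⟨π, hπ⟩ := exists_pi (D := D)
  have h0 : ∀ k ∈ D.K, D.chi k = 0 := fun k hk => by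
    refine K_ind (P := fun k => D.chi k = 0) (fun g hg => ?_)
      (fun a b ha hb h h' => by rw [chi_mul ha hb, h, h', add_zero]) hk
    rw [chi_nu hg]
    rcases hg with ⟨s, rfl⟩ | ⟨β, γ, rfl | rfl, rfl⟩ <;> simp [e_dir, hσ]
  have hR : ∀ n g, g ∈ D.RG n ↔ g ∈ D.StG n ∧ π g = 1 := fun n g => by
    rw [hπ]
    simp only [map_one, inv_one, mul_one]
    exact ⟨fun h => ⟨h.1, K'_le (R_le n h)⟩, fun h => mem_R h.2 h.1 fun u _ => h0 _ (sec_K h.2 u)⟩
  have hS : ∀ n q, ∃ g ∈ D.StG n, π g = q := fun n q => by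
    obtain ⟨k, hk, h⟩ := dense (D := D) (diag (D.ι q)) n
    exact ⟨⟨_, mul_mem (inv_mem (K_le hk)) (diag_mem q)⟩, inv_mul_mem_St h,
      (hπ _ _).2 (by simpa using hk)⟩
  have hN : ∀ n, (D.StG n).Normal := fun n => Subgroup.normal_subgroupOf
  have hP : ∀ (P : Subgroup Q) (n : ℕ), D.RG n ≤ D.StG n ⊓ P.comap π := fun P n g hg => ⟨hg.1, by
    change π g ∈ P
    rw [((hR n g).1 hg).2]
    exact one_mem _⟩
  have hP' : ∀ (P : Subgroup Q) (n : ℕ),
      D.StG (n + 1) ⊓ P.comap π ⊔ D.RG n = D.StG n ⊓ P.comap π := fun P n => by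
    refine le_antisymm (sup_le (inf_le_inf_right _ (D.fil.sa n.le_succ)) (hP P n)) fun g hg => ?_
    obtain ⟨g', h1, h2⟩ := hS (n + 1) (π g)
    rw [← mul_inv_cancel_left g' g]
    exact Subgroup.mul_mem_sup ⟨h1, show π g' ∈ P from h2 ▸ hg.2⟩ ((hR _ _).2
      ⟨mul_mem (inv_mem (D.fil.sa n.le_succ h1)) hg.1, by simp [h2]⟩)
  rw [D.fil.num]
  refine (Cardinal.mk_congr (Equiv.ofBijective (fun P => ⟨fun n => D.StG n ⊓ P.1.comap π, fun n =>
    ⟨by have := hN n; have := P.2; infer_instance, hP _ n, inf_le_left⟩, hP' _⟩) ⟨?_, ?_⟩)).symm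
  · intro P P' h
    have h1 : D.StG 0 ⊓ P.1.comap π = D.StG 0 ⊓ P'.1.comap π := congrFun (congrArg Subtype.val h) 0
    refine Subtype.ext (Subgroup.ext fun q => ?_)
    obtain ⟨g, hg, rfl⟩ := hS 0 q
    exact ⟨fun h => (h1.le ⟨hg, h⟩).2, fun h => (h1.ge ⟨hg, h⟩).2⟩
  · intro U
    refine ⟨⟨(U.1 0).map π, (U.2.1 0).1.map π fun q => (hS 0 q).imp fun _ h => h.2⟩,
      Subtype.ext (funext fun n => le_antisymm ?_ fun g hg =>
        ⟨(U.2.1 n).2.2 hg, g, U.anti n.zero_le hg, rfl⟩)⟩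
    rintro g ⟨hg, h, hh, h1⟩
    have := D.fil.rn 0
    rw [← U.sup D.fil n.zero_le] at hh
    obtain ⟨m, hm, r, hr, rfl⟩ := Subgroup.mem_sup_of_normal_right.1 hh
    rw [map_mul, ((hR 0 r).1 hr).2, mul_one] at h1
    rw [← mul_inv_cancel_left m g]
    exact mul_mem hm ((U.2.1 n).2.1 ((hR _ _).2
      ⟨mul_mem (inv_mem ((U.2.1 n).2.2 hm)) hg, by simp [h1]⟩))

theorem test (hσ : D.σ ≠ 1) (k : ℕ) : ∃ t ∈ D.R k, t ∈ St (k + 1) ∧ ∃ u : List X, u.length = k ∧
    D.chi (sec t (D.o0 :: u)) = 1 ∧ D.chi (sec t (D.o2 :: u)) = 0 := by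
  let u := List.replicate k D.o0
  have hu : u.length = k := by simp [u]
  have s1 := mul_mem (loc_St [D.o0] D.c) (loc_St [D.o1] D.c)
  have h1 : loc [D.o0] D.c * loc [D.o1] D.c ∈ D.K' := by
    obtain ⟨τ, h⟩ := D.trans D.o0 D.o1
    refine mem_K' (mul_mem (loc_K c_K _) (loc_K c_K _)) ?_
    rw [chi_mul (loc_K c_K _) (loc_K c_K _), ← h, ← conj_loc1,
      chi_conj (nu_K (nu_root τ)) (loc_K c_K _)]
    exact CharTwo.add_self_eq_zero _
  refine ⟨loc u (loc [D.o0] D.c * loc [D.o1] D.c), ⟨hu ▸ loc_St _ _, fun w hw => ?_⟩,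
    hu ▸ loc_St' s1, u, hu, ?_, ?_⟩
  · by_cases h : w = u
    · rwa [h, sec_loc]
    · rw [sec_loc_ne _ (hw.trans hu.symm) h]; exact one_mem _
  · rw [sec_cons, sec_loc, sec_mul_St _ (loc_St _ _) (by simp), sec_loc,
      sec_loc_ne _ (by simp) (by simp [D.h01]), mul_one, chi_c, if_neg hσ]
  · rw [sec_cons, sec_loc, sec_mul_St _ (loc_St _ _) (by simp),
      sec_loc_ne _ (by simp) (by simp [D.h02.symm]), sec_loc_ne _ (by simp) (by simp [D.h12.symm]),
      mul_one, chi_one]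

theorem R_Gam {n : ℕ} {g : Po X S} (h : g ∈ D.R n) : g ∈ D.Gam := K_le (K'_le (R_le n h))

theorem infinite_sys (hσ : D.σ ≠ 1) : Infinite (Sys D.StG D.RG) := by
  have hN : ∀ n, (D.StG n).Normal := fun n => Subgroup.normal_subgroupOf
  refine Infinite.of_injective (fun k : ℕ =>
    (⟨fun n => D.StG n ⊓ D.RG (min k n), fun n => ?_, fun n => ?_⟩ : Sys D.StG D.RG)) ?_
  · have := hN n
    have := D.fil.rn (min k n)
    exact ⟨inferInstance, le_inf (D.fil.rs n) (D.fil.ra (min_le_right _ _)), inf_le_left⟩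
  · refine le_antisymm (sup_le (inf_le_inf (D.fil.sa n.le_succ) (D.fil.ra (by omega)))
      (le_inf (D.fil.rs n) (D.fil.ra (min_le_right _ _)))) fun g hg => ?_
    beta_reduce at hg ⊢
    rcases le_or_gt k n with h | h
    · obtain ⟨t, ht, h2⟩ := trunc (D := D) (h := g.1) hg.1
      rw [← mul_inv_cancel_left ⟨t, R_Gam ht⟩ g, sup_comm]
      refine Subgroup.mul_mem_sup ht ⟨inv_mul_mem_St h2, ?_⟩
      rw [min_eq_left h] at hg
      rw [min_eq_left (by omega)]
      exact (D.R k).mul_mem ((D.R k).inv_mem (R_anti h ht)) hg.2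
    · rw [min_eq_right h.le] at hg
      exact Subgroup.mem_sup_right hg.2
  · refine Function.Injective.of_lt_imp_ne fun k k' h hh => ?_
    obtain ⟨j, rfl⟩ : ∃ j, k' = j + 1 := ⟨k' - 1, by omega⟩
    obtain ⟨t, ht, h1, u, hu, h2, -⟩ := test hσ j
    have h3 : D.StG (j + 1) ⊓ D.RG (min k (j + 1)) = D.StG (j + 1) ⊓ D.RG (min (j + 1) (j + 1)) :=
      congrFun (congrArg Subtype.val hh) (j + 1)
    have h4 := (h3.le (show ⟨t, R_Gam ht⟩ ∈ _ from ⟨h1, R_anti (by omega) ht⟩)).2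
    rw [min_self] at h4
    exact absurd ((chi_K' (h4.2 (D.o0 :: u) (by simp [hu]))).symm.trans h2) (by decide)

theorem Gam_K [Subsingleton Q] (g : D.Gam) : g.1 ∈ D.K := by
  obtain ⟨q, k, hk, h⟩ := Gam_dec g.2
  rwa [h, Subsingleton.elim q 1, map_one, map_one, mul_one]

/-- odd degree -/
theorem uncountable_sys [Subsingleton Q] (hσ : D.σ ≠ 1) (hd : Odd (Fintype.card X)) :
    ¬ Countable (Sys D.StG D.RG) := by
  let U : Set ℕ → ℕ → Subgroup D.Gam := fun A n =>
    { carrier := {g | g.1 ∈ St n ∧ ∀ u : List X, u.length ∈ A → u.length < n →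
        ∀ x y, D.chi (sec g.1 (x :: u)) = D.chi (sec g.1 (y :: u))}
      one_mem' := ⟨one_mem _, fun _ _ _ _ _ => rfl⟩
      mul_mem' := fun {a b} ha hb => ⟨mul_mem ha.1 hb.1, fun u h1 h2 x y => by
        rw [Subgroup.coe_mul, sec_mul_St (u := x :: u) _ hb.1 h2, sec_mul_St (u := y :: u) _ hb.1 h2,
          chi_mul (sec_K (Gam_K a) _) (sec_K (Gam_K b) _),
          chi_mul (sec_K (Gam_K a) _) (sec_K (Gam_K b) _), ha.2 u h1 h2 x y, hb.2 u h1 h2 x y]⟩
      inv_mem' := fun {a} ha => ⟨inv_mem ha.1, fun u h1 h2 x y => by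
        rw [Subgroup.coe_inv, sec_inv_St (u := x :: u) ha.1 h2, sec_inv_St (u := y :: u) ha.1 h2,
          chi_inv (sec_K (Gam_K a) _), chi_inv (sec_K (Gam_K a) _), ha.2 u h1 h2 x y]⟩ }
  have hR : ∀ A n, D.RG n ≤ U A n := fun A n g hg => ⟨hg.1, fun u _ h2 x y =>
    (chi_K' ((R_anti (show u.length + 1 ≤ n from h2) hg).2 (x :: u) rfl)).trans
      (chi_K' ((R_anti (show u.length + 1 ≤ n from h2) hg).2 (y :: u) rfl)).symm⟩
  have hU : ∀ A, (∀ n, (U A n).Normal ∧ D.RG n ≤ U A n ∧ U A n ≤ D.StG n) ∧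
      ∀ n, U A (n + 1) ⊔ D.RG n = U A n := by
    refine fun A => ⟨fun n => ⟨⟨fun g hg a => ⟨(St_normal n).conj_mem _ hg.1 a.1, ?_⟩⟩, hR A n,
      fun g hg => hg.1⟩, fun n => le_antisymm (sup_le (fun g hg =>
        ⟨St_anti n.le_succ hg.1, fun u h1 h2 => hg.2 u h1 (by omega)⟩) (hR A n)) fun g hg => ?_⟩
    · intro v h1 h2
      obtain ⟨u, rfl⟩ : ∃ u, v = a.1 • u := ⟨a.1⁻¹ • v, (smul_inv_smul a.1 v).symm⟩
      rw [len] at h1 h2
      have h3 : ∀ x, D.chi (sec (a.1 * g.1 * a.1⁻¹) ((a.1 u • x) :: a.1 • u)) =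
          D.chi (sec g.1 (x :: u)) := fun x => by
        rw [← smul_cons, sec_conj a.1 g.1 (St_fix (v := x :: u) hg.1 h2),
          chi_conj (sec_K (Gam_K a) _) (sec_K (Gam_K g) _)]
      intro x y
      rw [← smul_inv_smul (a.1 u) x, ← smul_inv_smul (a.1 u) y]
      exact (h3 _).trans ((hg.2 u h1 h2 _ _).trans (h3 _).symm)
    · let f : List X → Po X S := fun v => if D.chi (sec g.1 v.tail) = 0 then 1 else D.c
      have hf : ∀ v, f v ∈ D.K := fun v => by
        simp only [f]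
        split_ifs
        exacts [one_mem _, c_K]
      have hf2 : ∀ v, D.chi (f v) = D.chi (sec g.1 v.tail) := fun v => by
        simp only [f]
        split_ifs with h
        · rw [h, chi_one]
        · rw [chi_c, if_neg hσ]
          revert h
          generalize D.chi (sec g.1 v.tail) = a
          revert a
          decide
      have hm : asm (n + 1) f ∈ D.K := asm_K hf
      have h1 : ∀ (u : List X) (x : X), u.length = n →
          D.chi (sec (asm (n + 1) f) (x :: u)) = D.chi (sec g.1 u) := fun u x hu => by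
        rw [sec_asm _ (by simp [hu]), hf2]; rfl
      have s1 := St_anti n.le_succ (asm_St (n + 1) f)
      have h2 : (⟨_, K_le hm⟩ : D.Gam)⁻¹ * g ∈ D.RG n :=
        mem_R (mul_mem (inv_mem hm) (Gam_K g)) (mul_mem (inv_mem s1) hg.1) fun u hu => by
          change D.chi (sec ((asm (n + 1) f)⁻¹ * g.1) u) = 0
          rw [sec_mul_St _ hg.1 hu.le, sec_inv_St s1 hu.le,
            chi_mul (inv_mem (sec_K hm _)) (sec_K (Gam_K g) _), chi_inv (sec_K hm _),
            chi_sum (sec_K hm _)]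
          simp only [← sec_cons, h1 u _ hu, Finset.sum_const, Finset.card_univ, nsmul_eq_mul,
            ZMod.natCast_eq_one_iff_odd.2 hd, one_mul]
          exact CharTwo.add_self_eq_zero _
      have h3 := mul_mem hg (inv_mem (hR A n h2))
      rw [mul_inv_rev, inv_inv, mul_inv_cancel_left] at h3
      rw [← mul_inv_cancel_left (⟨_, K_le hm⟩ : D.Gam) g]
      refine Subgroup.mul_mem_sup ⟨asm_St (n + 1) f, fun u h4 h5 x y => ?_⟩ h2
      rcases Nat.lt_succ_iff_lt_or_eq.1 h5 with h6 | h6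
      · exact h3.2 u h4 h6 x y
      · exact (h1 u x h6).trans (h1 u y h6).symm
  have hle : ∀ A B : Set ℕ, U B = U A → A ⊆ B := fun A B h k hk => by
    by_contra hB
    obtain ⟨t, ht, h1, u, hu, h2, h3⟩ := test hσ k
    have h4 : (⟨t, R_Gam ht⟩ : D.Gam) ∈ U B (k + 1) := ⟨h1, fun w h5 h6 =>
      (hR B k (show ⟨t, R_Gam ht⟩ ∈ _ from ht)).2 w h5
        (lt_of_le_of_ne (by omega) fun hh => hB (hh ▸ h5))⟩
    rw [h] at h4
    exact absurd (h2.symm.trans ((h4.2 u (hu ▸ hk) (by omega) _ _).trans h3)) (by decide)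
  intro hc
  have hi : Function.Injective fun A => (⟨U A, hU A⟩ : Sys D.StG D.RG) := fun A B h =>
    (hle A B (congrArg Subtype.val h).symm).antisymm (hle B A (congrArg Subtype.val h))
  have h2 := Cardinal.mk_le_aleph0_iff.2 (@Function.Injective.countable _ _ hc _ hi)
  rw [Cardinal.mk_set, Cardinal.mk_nat] at h2
  exact (Cardinal.cantor _).not_ge h2

theorem mod_lemma (D : Dat X S Q) (W : AddSubgroup (X → ZMod 2))
    (h1 : ∀ (τ : S), ∀ w ∈ W, (fun p => w (τ • p)) ∈ W) {w : X → ZMod 2} {x y : X}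
    (hxy : w x ≠ w y) (h2 : ∀ τ : S, (fun p => w (τ • p) + w p) ∈ W) {v : X → ZMod 2}
    (hv : ∑ p, v p = 0) : v ∈ W := by
  let δ : X → X → ZMod 2 := fun a p => if p = a then 1 else 0
  have hz : ∀ a b : ZMod 2, a ≠ b → a + b = 1 ∧ b + a = 1 := by decide
  have hz' : ∀ a b c : ZMod 2, a ≠ b → c ≠ b → c = a := by decide
  have h3 : ∃ r, r ≠ x ∧ δ x + δ r ∈ W := by
    obtain ⟨z, zx, zy, -⟩ := D.big x y y
    have xy : x ≠ y := fun h => hxy (h ▸ rfl)
    obtain ⟨τ, t1, t2, t3, t4⟩ := D.cyc x y z xy zx.symm zy.symm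
    have h4 := hz _ _ hxy
    by_cases h : w z = w y
    · refine ⟨z, zx, ?_⟩
      convert h2 τ using 1
      funext p
      by_cases p1 : p = x
      · simp [δ, p1, t1, zx.symm, h4]
      by_cases p2 : p = y
      · simp [δ, p2, t2, xy.symm, zy.symm, h, CharTwo.add_self_eq_zero]
      by_cases p3 : p = z
      · simp [δ, p3, t3, zx, h, h4]
      · simp [δ, p1, p3, t4 p p1 p2 p3, CharTwo.add_self_eq_zero]
    · refine ⟨y, xy.symm, ?_⟩
      have h5 := hz' _ _ _ hxy h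
      convert h2 τ using 1
      funext p
      by_cases p1 : p = x
      · simp [δ, p1, t1, xy, h4]
      by_cases p2 : p = y
      · simp [δ, p2, t2, xy.symm, h5, h4]
      by_cases p3 : p = z
      · simp [δ, p3, t3, zx, zy, h5, CharTwo.add_self_eq_zero]
      · simp [δ, p1, p2, t4 p p1 p2 p3, CharTwo.add_self_eq_zero]
  obtain ⟨r, rx, hr⟩ := h3
  have h4 : ∀ s, δ x + δ s ∈ W := fun s => by
    by_cases s1 : s = x
    · rw [s1, show δ x + δ x = 0 from funext fun _ => CharTwo.add_self_eq_zero _]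
      exact zero_mem _
    by_cases s2 : s = r
    · exact s2 ▸ hr
    obtain ⟨z, zx, zr, zs⟩ := D.big x r s
    obtain ⟨τ, t1, -, -, t4⟩ := D.cyc s r z s2 zs.symm zr.symm
    have t5 := t4 x (Ne.symm s1) rx.symm zx.symm
    convert h1 τ _ hr using 1
    funext p
    have e1 : τ • p = x ↔ p = x := by rw [← t5, smul_left_cancel_iff, t5]
    have e2 : τ • p = r ↔ p = s := by rw [← t1, smul_left_cancel_iff]
    simp [δ, e1, e2]
  have h5 : v = ∑ s, v s • (δ x + δ s) := funext fun p => by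
    simp [δ, Finset.sum_add_distrib, hv]
  rw [h5]
  refine sum_mem fun s _ => ?_
  rcases (by decide : ∀ a : ZMod 2, a = 0 ∨ a = 1) (v s) with h | h
  · rw [h, zero_smul]; exact zero_mem _
  · rw [h, one_smul]; exact h4 s

theorem step [Subsingleton Q] (hX : Even (Fintype.card X)) (U : Sys D.StG D.RG) {n : ℕ}
    (hn : U.1 n ≠ D.RG n) : D.StG (n + 1) ⊓ D.RG n ≤ U.1 (n + 1) := by
  let M := (U.1 (n + 1)).map D.Gam.subtype
  have hM : ∀ a ∈ D.K, ∀ m ∈ M, a * m * a⁻¹ ∈ M := by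
    rintro a ha _ ⟨m, hm, rfl⟩
    exact ⟨_, (U.2.1 _).1.conj_mem m hm ⟨a, K_le ha⟩, rfl⟩
  obtain ⟨m, hm, h1⟩ : ∃ m ∈ U.1 (n + 1), m ∉ D.RG n :=
    SetLike.not_le_iff_exists.1 fun h => hn (by rw [← U.2.2 n, sup_eq_right.2 h])
  have hs : m.1 ∈ St (n + 1) := (U.2.1 _).2.2 hm
  obtain ⟨u, hu, h2⟩ : ∃ u : List X, u.length = n ∧ D.chi (sec m.1 u) ≠ 0 := by
    by_contra hh
    push Not at hh
    exact h1 (mem_R (Gam_K m) (St_anti n.le_succ hs) hh)
  have aK := sec_K (Gam_K m) u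
  have aS : sec m.1 u ∈ St 1 := sec_St hs (by omega)
  have hc : ∀ (τ : S) {d : Po X S}, d ∈ St 1 → ∀ p,
      sec (root τ⁻¹ * d * (root τ⁻¹)⁻¹) [p] = sec d [τ • p] := fun τ d hd p => by
    conv_lhs => rw [← inv_smul_smul τ p, ← root_smul]
    rw [sec_conj _ _ (St_fix hd (by simp)), sec_root]
    simp
  let W : AddSubgroup (X → ZMod 2) :=
    { carrier := {w | ∃ d ∈ D.K, d ∈ St 1 ∧ loc u d ∈ M ∧ w = fun p => D.chi (sec d [p])}
      zero_mem' := ⟨1, one_mem _, one_mem _, by rw [map_one]; exact one_mem _, by funext p; simp⟩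
      add_mem' := by
        rintro _ _ ⟨a, a1, a2, a3, rfl⟩ ⟨b, b1, b2, b3, rfl⟩
        refine ⟨a * b, mul_mem a1 b1, mul_mem a2 b2, by rw [map_mul]; exact mul_mem a3 b3, ?_⟩
        funext p
        rw [sec_mul_St _ b2 (by simp), chi_mul (sec_K a1 _) (sec_K b1 _)]; rfl
      neg_mem' := fun {w} h => by rwa [show -w = w from funext fun _ => CharTwo.neg_eq _] }
  have hE : ∀ d ∈ D.K', d ∈ St 1 → loc u d ∈ M := fun d hd hd1 => by
    obtain ⟨x, y, hxy⟩ : ∃ x y, D.chi (sec (sec m.1 u) [x]) ≠ D.chi (sec (sec m.1 u) [y]) := by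
      by_contra hh
      push Not at hh
      refine h2 ?_
      rw [chi_sum aK, Finset.sum_congr rfl fun x _ => hh x D.o0, Finset.sum_const, Finset.card_univ,
        nsmul_eq_mul, ZMod.natCast_eq_zero_iff_even.2 hX, zero_mul]
    have rK : ∀ τ : S, root τ ∈ D.K := fun τ => nu_K (nu_root τ)
    obtain ⟨d', d1, d2, d3, d4⟩ := D.mod_lemma W (w := fun p => D.chi (sec (sec m.1 u) [p]))
      (by
        rintro τ _ ⟨a, a1, a2, a3, rfl⟩
        refine ⟨_, conj_K (K_le (rK τ⁻¹)) a1, (St_normal 1).conj_mem _ a2 _, ?_, ?_⟩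
        · rw [map_mul, map_mul, map_inv (loc u) (root τ⁻¹)]
          exact hM _ (loc_K (rK _) u) _ a3
        · funext p
          rw [hc τ a2])
      hxy
      (fun τ => by
        have s1 := (St_normal 1).conj_mem _ aS (root τ⁻¹)
        refine ⟨⁅root τ⁻¹, sec m.1 u⁆, comm_K (rK _) aK, mul_mem s1 (inv_mem aS), ?_, ?_⟩
        · rw [← comm_loc _ (St_fix hs (by omega))]
          exact mul_mem (hM _ (loc_K (rK _) u) _ ⟨m, hm, rfl⟩) (inv_mem ⟨m, hm, rfl⟩)
        · funext p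
          rw [commutatorElement_def, sec_mul_St _ (inv_mem aS) (by simp), hc τ aS,
            sec_inv_St aS (by simp), chi_mul (sec_K aK _) (inv_mem (sec_K aK _)),
            chi_inv (sec_K aK _)])
      (v := fun p => D.chi (sec d [p])) ((chi_sum (K'_le hd)).symm.trans (chi_K' hd))
    have h3 : loc u (d'⁻¹ * d) ∈ D.R (n + 1) := by
      refine ⟨hu ▸ loc_St' (mul_mem (inv_mem d2) hd1), fun v hv => ?_⟩
      obtain ⟨p, w, rfl⟩ := List.exists_cons_of_length_eq_add_one hv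
      rw [sec_cons]
      by_cases h : w = u
      · rw [h, sec_loc]
        refine mem_K' (sec_K (mul_mem (inv_mem d1) (K'_le hd)) _) ?_
        rw [sec_mul_St _ hd1 (by simp), sec_inv_St d2 (by simp),
          chi_mul (inv_mem (sec_K d1 _)) (sec_K (K'_le hd) _), chi_inv (sec_K d1 _), ← congrFun d4 p]
        exact CharTwo.add_self_eq_zero _
      · rw [sec_loc_ne _ (by simpa [hu] using hv) h]; exact one_mem _
    rw [← mul_inv_cancel_left d' d, map_mul]
    exact mul_mem d3 ⟨⟨_, R_Gam h3⟩, (U.2.1 _).2.1 h3, rfl⟩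
  intro r hr
  refine (Subgroup.mem_map_iff_mem D.Gam.subtype_injective).1 (decomp M hr.2.1 fun v hv => ?_)
  obtain ⟨k, hk, rfl⟩ := lev_trans (D := D) u v (hu.trans hv.symm)
  have h3 := hM k hk _ (hE _ (conj_K' (K_le (inv_mem (sec_K hk u))) (hr.2.2 _ hv))
    ((St_normal 1).conj_mem _ (sec_St hr.1 (by omega)) _))
  rw [conj_loc] at h3
  simpa [mul_assoc] using h3

/-- even degree -/
theorem countable_sys [Subsingleton Q] (hd : Even (Fintype.card X)) :
    Countable (Sys D.StG D.RG) := by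
  have h1 : ∀ (U : Sys D.StG D.RG) (n : ℕ), U.1 n ≠ D.RG n →
      U.1 (n + 1) = D.StG (n + 1) ⊓ U.1 n := fun U n hn => by
    refine le_antisymm (le_inf (U.2.1 _).2.2 (U.anti n.le_succ)) fun g hg => ?_
    have := D.fil.rn n
    have h2 := hg.2
    rw [← U.2.2 n] at h2
    obtain ⟨m, hm, r, hr, rfl⟩ := Subgroup.mem_sup_of_normal_right.1 h2
    exact mul_mem hm (step hd U hn ⟨(mul_mem_cancel_left ((U.2.1 _).2.2 hm)).1 hg.1, hr⟩)
  refine Set.countable_univ_iff.1 (Set.Countable.mono (s₂ := {U | ∀ n, U.1 n = D.RG n} ∪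
    ⋃ n, ⋃ N ∈ {N : Subgroup D.Gam | N.FiniteIndex}, {U | U.1 n = N ∧ N ≠ D.RG n}) ?_
    (Set.Countable.union (Set.Subsingleton.countable ?_) (Set.countable_iUnion fun n =>
      (countable_fi D.fg).biUnion fun N _ => Set.Subsingleton.countable ?_)))
  · intro U _
    by_cases h : ∀ n, U.1 n = D.RG n
    · exact Or.inl h
    · obtain ⟨n, hn⟩ := not_forall.1 h
      have := D.fil.rf n
      exact Or.inr (Set.mem_iUnion.2 ⟨n, Set.mem_biUnion
        (Subgroup.finiteIndex_of_le (U.2.1 n).2.1 : (U.1 n).FiniteIndex) ⟨rfl, hn⟩⟩)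
  · exact fun U h U' h' => Subtype.ext (funext fun n => (h n).trans (h' n).symm)
  · rintro U ⟨rfl, h⟩ U' ⟨h', -⟩
    refine Subtype.ext (funext fun m => ?_)
    rcases le_total m n with hm | hm
    · rw [← U.sup D.fil hm, ← U'.sup D.fil hm, h']
    · have : U'.1 m = U.1 m ∧ U.1 m ≠ D.RG m := by
        induction m, hm using Nat.le_induction with
        | base => exact ⟨h', h⟩
        | succ m _ ih =>
          refine ⟨by rw [h1 U m ih.2, h1 U' m (ih.1 ▸ ih.2), ih.1], fun hh => ih.2 ?_⟩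
          rw [← U.2.2 m, hh, sup_eq_right.2 (D.fil.ra m.le_succ)]
      exact this.1.symm

end Dat

end Pool.Agent.P.MP_042d8e_al
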