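import Mathlib

/-! Branch groups and equivalence classes of normal T-sequences. -/

set_option autoImplicit false

namespace Pool.Agent.P.MP_042d8e_al

/-- `G` acts faithfully and transitively on each level of a locally finite rooted tree (vertices `V`,
level `lev`, parent `par`, at least two children everywhere), and for every `n` the subgroup generated
by the rigid stabilisers of the vertices of level `n` has finite index. -/
def IsBranch (G : Type) [Group G] : Prop :=
  ∃ (V : Type) (_ : MulAction G V) (lev : V → ℕ) (par : V → V),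
    (∀ v w : V, lev v = 0 → lev w = 0 → v = w) ∧
    (∃ v : V, lev v = 0) ∧
    (∀ w : V, lev w = 0 → par w = w) ∧
    (∀ w : V, lev w ≠ 0 → lev (par w) + 1 = lev w) ∧
    (∀ n : ℕ, {v : V | lev v = n}.Finite) ∧
    (∀ v : V, ∃ w₁ w₂ : V, w₁ ≠ w₂ ∧ par w₁ = v ∧ par w₂ = v ∧
        lev w₁ = lev v + 1 ∧ lev w₂ = lev v + 1) ∧
    (∀ (g : G) (w : V), lev (g • w) = lev w ∧ par (g • w) = g • par w) ∧
    (∀ g : G, (∀ v : V, g • v = v) → g = 1) ∧
    (∀ v w : V, lev v = lev w → ∃ g : G, g • v = w) ∧
    (∀ n : ℕ, (Subgroup.closure {g : G | ∃ v : V, lev v = n ∧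
        ∀ w : V, (∀ k : ℕ, par^[k] w ≠ v) → g • w = w}).FiniteIndex)

/-- normal T-sequences: descending sequences of normal subgroups of finite index with trivial
intersection -/
def NT (G : Type) [Group G] : Type :=
  {M : ℕ → Subgroup G // Antitone M ∧ (∀ i, (M i).Normal ∧ (M i).FiniteIndex) ∧ ⨅ i, M i = ⊥}

/-- two sequences are equivalent if each term of either contains some term of the other -/
def eqvNT (G : Type) [Group G] : Setoid (NT G) where
  r M N := (∀ i, ∃ j, N.1 j ≤ M.1 i) ∧ (∀ i, ∃ j, M.1 j ≤ N.1 i)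
  iseqv :=
    ⟨fun _ => ⟨fun i => ⟨i, le_rfl⟩, fun i => ⟨i, le_rfl⟩⟩, fun h => ⟨h.2, h.1⟩, fun h h' =>
      ⟨fun i => (h.1 i).elim fun j hj => (h'.1 j).elim fun k hk => ⟨k, hk.trans hj⟩,
        fun i => (h'.2 i).elim fun j hj => (h.2 j).elim fun k hk => ⟨k, hk.trans hj⟩⟩⟩

/-- the number of equivalence classes of normal T-sequences -/
def numClasses (G : Type) [Group G] : Cardinal := Cardinal.mk (Quotient (eqvNT G))

end Pool.Agent.P.MP_042d8e_al
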