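import Pool.Agent.P.MP_042d8e_al.Grp

/-! The group `Gam`, its two filtrations and the branch property. -/

set_option autoImplicit false
set_option linter.unusedSectionVars false

open scoped commutatorElement

namespace Pool.Agent.P.MP_042d8e_al

open Po

variable {X S Q : Type} [Group S] [MulAction S X] [Group Q] [DecidableEq X] [DecidableEq S]
  [Fintype X] [Finite S] [Finite Q]

namespace Dat

variable (D : Dat X S Q)

/-- the directed involution -/
def c : Po X S := D.dir 1 D.σ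

/-- the derived subgroup of `K` -/
def K' : Subgroup (Po X S) := ⁅D.K, D.K⁆

/-- the branch group -/
def Gam : Subgroup (Po X S) :=
  Subgroup.closure ({g | D.Nu g} ∪ Set.range fun q => diag (D.ι q))

/-- elements of the level stabiliser with all sections in the derived subgroup -/
def R (n : ℕ) : Subgroup (Po X S) where
  carrier := {g | g ∈ St n ∧ ∀ u : List X, u.length = n → sec g u ∈ D.K'}
  one_mem' := ⟨one_mem _, fun _ _ => one_mem _⟩
  mul_mem' ha hb := ⟨mul_mem ha.1 hb.1, fun u hu => by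
    rw [sec_mul_St _ hb.1 hu.le]; exact mul_mem (ha.2 u hu) (hb.2 u hu)⟩
  inv_mem' ha := ⟨inv_mem ha.1, fun u hu => by
    rw [sec_inv_St ha.1 hu.le]; exact inv_mem (ha.2 u hu)⟩

variable {D}

theorem c_nu : D.Nu D.c := Or.inr ⟨_, _, Or.inr rfl, rfl⟩
theorem c_K : D.c ∈ D.K := nu_K c_nu
theorem cc : D.c * D.c = 1 := by rw [c, dir_mul, D.σσ, mul_one, dir_one]
theorem chi_c : D.chi D.c = if D.σ = 1 then 0 else 1 := (chi_nu c_nu).trans (e_dir _ _)

theorem comm_K {a b : Po X S} (ha : a ∈ D.K) (hb : b ∈ D.K) : ⁅a, b⁆ ∈ D.K :=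
  mul_mem (mul_mem (mul_mem ha hb) (inv_mem ha)) (inv_mem hb)

theorem K'_le : D.K' ≤ D.K := Subgroup.commutator_le.2 fun _ ha _ hb => comm_K ha hb

theorem K'_map {G : Subgroup (Po X S)} (f : Po X S →* Po X S)
    (h : ∀ a ∈ D.K, ∀ b ∈ D.K, ⁅f a, f b⁆ ∈ G) {d : Po X S} (hd : d ∈ D.K') : f d ∈ G := by
  have : D.K' ≤ G.comap f := Subgroup.commutator_le.2 fun a ha b hb => by
    rw [Subgroup.mem_comap, map_commutatorElement]; exact h a ha b hb
  exact this hd

theorem loc_K' {d : Po X S} (hd : d ∈ D.K') (u : List X) : loc u d ∈ D.K' :=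
  K'_map (loc u) (fun _ ha _ hb => Subgroup.commutator_mem_commutator (loc_K ha u) (loc_K hb u)) hd

theorem root_K' (s : S) : root s ∈ D.K' := D.perf_le root
  (fun _ _ => Subgroup.commutator_mem_commutator (nu_K (nu_root _)) (nu_K (nu_root _))) s

theorem K_le : D.K ≤ D.Gam := Subgroup.closure_mono Set.subset_union_left

theorem diag_mem (q : Q) : diag (D.ι q) ∈ D.Gam := Subgroup.subset_closure (Or.inr ⟨q, rfl⟩)

theorem diag_conj (q : Q) {k : Po X S} (hk : k ∈ D.K) :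
    diag (D.ι q) * k * (diag (D.ι q))⁻¹ ∈ D.K := by
  refine K_ind (P := fun k => diag (D.ι q) * k * (diag (D.ι q))⁻¹ ∈ D.K) ?_
    (fun a b _ _ ha hb => by simpa [mul_assoc] using mul_mem ha hb) hk
  rintro g (⟨s, rfl⟩ | ⟨β, γ, h, rfl⟩)
  · rw [conj_root]; exact nu_K (nu_root _)
  · rw [conj_dir]
    refine nu_K (Or.inr ⟨_, _, ?_, rfl⟩)
    rcases h with rfl | rfl
    · simp
    · simp [D.cm]

theorem Gam_dec {g : Po X S} (hg : g ∈ D.Gam) : ∃ q, ∃ k ∈ D.K, g = k * diag (D.ι q) := by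
  induction hg using Subgroup.closure_induction'' with
  | mem g h =>
    rcases h with h | ⟨q, rfl⟩
    · exact ⟨1, g, nu_K h, by simp⟩
    · exact ⟨q, 1, one_mem _, by simp⟩
  | inv_mem g h =>
    rcases h with h | ⟨q, rfl⟩
    · exact ⟨1, g⁻¹, nu_K (nu_inv h), by simp⟩
    · exact ⟨q⁻¹, 1, one_mem _, by simp⟩
  | one => exact ⟨1, 1, one_mem _, by simp⟩
  | mul a b _ _ ha hb =>
    obtain ⟨q, k, hk, rfl⟩ := ha
    obtain ⟨q', k', hk', rfl⟩ := hb
    exact ⟨q * q', _, mul_mem hk (diag_conj q hk'), by simp [mul_assoc]⟩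

theorem conj_K {a k : Po X S} (ha : a ∈ D.Gam) (hk : k ∈ D.K) : a * k * a⁻¹ ∈ D.K := by
  obtain ⟨q, k', hk', rfl⟩ := Gam_dec ha
  simpa [mul_assoc] using mul_mem (mul_mem hk' (diag_conj q hk)) (inv_mem hk')

theorem conj_K' {a d : Po X S} (ha : a ∈ D.Gam) (hd : d ∈ D.K') : a * d * a⁻¹ ∈ D.K' :=
  K'_map (MulAut.conj a).toMonoidHom
    (fun _ h _ h' => Subgroup.commutator_mem_commutator (conj_K ha h) (conj_K ha h')) hd

theorem sec_Gam {g : Po X S} (hg : g ∈ D.Gam) (u : List X) : sec g u ∈ D.Gam := by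
  obtain ⟨q, k, hk, rfl⟩ := Gam_dec hg
  rw [sec_mul]
  exact mul_mem (K_le (sec_K hk _)) (diag_mem q)

theorem diag_K {q : Q} (h : diag (D.ι q) ∈ D.K) : q = 1 := by
  obtain ⟨n, hn⟩ := K_tm h
  induction n with
  | zero =>
    refine D.inj (Eq.trans ?_ (map_one D.ι).symm)
    rcases hn with ⟨s, h⟩ | ⟨β, γ, -, h⟩
    · simpa [root_app, diag_app] using congrFun h [D.o0]
    · exact congrFun h []
  | succ n ih => exact ih (hn D.o0)

theorem chi_K' {d : Po X S} (hd : d ∈ D.K') : D.chi d = 0 := by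
  let H : Subgroup (Po X S) :=
    { carrier := {g | g ∈ D.K ∧ D.chi g = 0}
      one_mem' := ⟨one_mem _, chi_one⟩
      mul_mem' := fun ha hb => ⟨mul_mem ha.1 hb.1, by rw [chi_mul ha.1 hb.1, ha.2, hb.2, add_zero]⟩
      inv_mem' := fun ha => ⟨inv_mem ha.1, by rw [chi_inv ha.1, ha.2]⟩ }
  have : D.K' ≤ H := Subgroup.commutator_le.2 fun a ha b hb => ⟨comm_K ha hb, by
    rw [commutatorElement_def, chi_mul (conj_K (K_le ha) hb) (inv_mem hb), chi_conj ha hb, chi_inv hb]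
    exact CharTwo.add_self_eq_zero _⟩
  exact (this hd).2

theorem mem_K' {k : Po X S} (hk : k ∈ D.K) (h : D.chi k = 0) : k ∈ D.K' := by
  have hc : D.c⁻¹ = D.c := inv_eq_of_mul_eq_one_right cc
  have h0 : ∀ β, D.dir β 1 ∈ D.K' := D.perf_le D.dirH fun a b =>
    Subgroup.commutator_mem_commutator (nu_K (Or.inr ⟨_, _, Or.inl rfl, rfl⟩))
      (nu_K (Or.inr ⟨_, _, Or.inl rfl, rfl⟩))
  have h1 : k ∈ D.K' ∨ k * D.c ∈ D.K' := by
    refine K_ind (P := fun k => k ∈ D.K' ∨ k * D.c ∈ D.K') ?_ ?_ hk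
    · rintro g (⟨s, rfl⟩ | ⟨β, γ, rfl | rfl, rfl⟩)
      · exact Or.inl (root_K' s)
      · exact Or.inl (h0 β)
      · right
        rw [c, dir_mul, D.σσ]
        exact h0 _
    · rintro a b - - (ha | ha) (hb | hb)
      · exact Or.inl (mul_mem ha hb)
      · exact Or.inr (mul_assoc a b _ ▸ mul_mem ha hb)
      · have := mul_mem ha (conj_K' (K_le (inv_mem c_K)) hb)
        exact Or.inr (by simpa [mul_assoc] using this)
      · have := mul_mem ha (conj_K' (K_le c_K) hb)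
        left
        simpa [mul_assoc, ← mul_assoc D.c D.c, cc] using this
  rcases h1 with h1 | h1
  · exact h1
  · have h2 := chi_K' h1
    rw [chi_mul hk c_K, h, zero_add, chi_c] at h2
    have h3 : D.σ = 1 := by
      by_contra h3
      simp [h3] at h2
    rwa [c, h3, dir_one, mul_one] at h1

theorem R_le (n : ℕ) : D.R n ≤ D.K' := fun _ hg => decomp _ hg.1 fun u hu => loc_K' (hg.2 u hu) u

theorem R_anti : Antitone D.R := fun n m h g hg => ⟨St_anti h hg.1, fun u hu =>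
  decomp _ (sec_St (k := m - n) hg.1 (by omega)) fun w hw =>
    loc_K' (sec_sec g u w ▸ hg.2 _ (by simp; omega)) w⟩

theorem mem_R {n : ℕ} {g : Po X S} (hK : g ∈ D.K) (hg : g ∈ St n)
    (h : ∀ u : List X, u.length = n → D.chi (sec g u) = 0) : g ∈ D.R n :=
  ⟨hg, fun u hu => mem_K' (sec_K hK u) (h u hu)⟩

theorem asm_K {n : ℕ} {f : List X → Po X S} (h : ∀ u, f u ∈ D.K) : asm n f ∈ D.K :=
  decomp _ (asm_St n f) fun u hu => by rw [sec_asm _ hu]; exact loc_K (h u) u

theorem lev_trans : ∀ v w : List X, v.length = w.length → ∃ g ∈ D.K, g • v = w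
  | [], [], _ => ⟨1, one_mem _, rfl⟩
  | x :: v, y :: w, h => by
    obtain ⟨g, hg, rfl⟩ := lev_trans v w (by simpa using h)
    obtain ⟨τ, rfl⟩ := D.trans (g v • x) y
    refine ⟨loc (g • v) (root τ) * g, mul_mem (loc_root_K' _ τ) hg, ?_⟩
    rw [mul_smul, smul_cons, smul_cons, St_fix (loc_St _ _) le_rfl]
    congr 2
    exact congrFun (sec_loc (g • v) (root τ)) []
where loc_root_K' (u : List X) (τ : S) : loc u (root τ) ∈ D.K := loc_K (nu_K (nu_root τ)) u

theorem exists_pi : ∃ π : D.Gam →* Q, ∀ (g : D.Gam) (q : Q),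
    π g = q ↔ g.1 * (diag (D.ι q))⁻¹ ∈ D.K := by
  have h1 : ∀ g : D.Gam, ∃ q, g.1 * (diag (D.ι q))⁻¹ ∈ D.K := fun g => by
    obtain ⟨q, k, hk, h⟩ := Gam_dec g.2
    exact ⟨q, by simpa [h] using hk⟩
  choose f hf using h1
  have h2 : ∀ (g : D.Gam) (q : Q), f g = q ↔ g.1 * (diag (D.ι q))⁻¹ ∈ D.K := fun g q =>
    ⟨fun h => h ▸ hf g, fun h => mul_inv_eq_one.1 (diag_K (D := D) (by
      simpa [mul_assoc] using mul_mem (inv_mem (hf g)) h))⟩
  refine ⟨MonoidHom.mk' f fun a b => (h2 _ _).2 ?_, h2⟩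
  simpa [mul_assoc] using mul_mem (hf a) (diag_conj (f a) (hf b))

theorem K'_fi : (D.K'.subgroupOf D.Gam).FiniteIndex := by
  obtain ⟨π, hπ⟩ := exists_pi (D := D)
  refine finiteIndex_of_fun (fun g => (π g, D.chi (g.1 * (diag (D.ι (π g)))⁻¹))) fun a b h => ?_
  obtain ⟨h1, h2⟩ := Prod.mk.inj h
  have ha := (hπ a _).1 rfl
  have hb := (hπ b _).1 h1.symm
  rw [← h1] at h2
  have h3 := mem_K' (mul_mem (inv_mem ha) hb) (by
    rw [chi_mul (inv_mem ha) hb, chi_inv ha, h2]; exact CharTwo.add_self_eq_zero _)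
  have h4 := conj_K' (inv_mem (diag_mem (π a))) h3
  simpa [mul_assoc, Subgroup.mem_subgroupOf] using h4

theorem R_fi (n : ℕ) : ((D.R n).subgroupOf D.Gam).FiniteIndex := by
  have := K'_fi (D := D)
  have := (List.finite_length_lt X n).to_subtype
  have := (List.finite_length_eq X n).to_subtype
  refine finiteIndex_of_fun (fun g => ((fun v : {v : List X | v.length < n} => g.1 v.1),
    fun u : {v : List X | v.length = n} =>
      ((⟨sec g.1 u, sec_Gam g.2 u⟩ : D.Gam) : D.Gam ⧸ D.K'.subgroupOf D.Gam))) fun a b h => ?_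
  obtain ⟨h1, h2⟩ := Prod.mk.inj h
  have h3 : ∀ v : List X, v.length < n → a.1 v = b.1 v := fun v hv => congrFun h1 ⟨v, hv⟩
  refine ⟨inv_mul_mem_St h3, fun u hu => ?_⟩
  have h4 := QuotientGroup.eq.1 (congrFun h2 ⟨u, hu⟩)
  change sec (a.1⁻¹ * b.1) u ∈ D.K'
  rwa [sec_mul, ← smul_congr (a := a.1) u fun w hw => h3 w (by omega), sec_inv]

theorem exists_ne_one (D : Dat X S Q) : ∃ s : S, s ≠ 1 := by
  obtain ⟨τ, h⟩ := D.trans D.o0 D.o1
  exact ⟨τ, fun hh => D.h01 (by simpa [hh] using h)⟩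

variable (D)

/-- level stabilisers in `Gam` -/
def StG (n : ℕ) : Subgroup D.Gam := (St n).subgroupOf D.Gam

/-- the second filtration of `Gam` -/
def RG (n : ℕ) : Subgroup D.Gam := (D.R n).subgroupOf D.Gam

theorem fil : Fil D.StG D.RG where
  sa _ _ h _ hg := St_anti h hg
  sb g h := Subtype.ext (funext fun v => h (v.length + 1) v (Nat.lt_succ_self _))
  ra _ _ h _ hg := R_anti h hg
  rn n := ⟨fun g hg a => ⟨(St_normal n).conj_mem _ hg.1 a.1, fun v hv => by
    obtain ⟨u, rfl⟩ : ∃ u, v = a.1 • u := ⟨a.1⁻¹ • v, (smul_inv_smul a.1 v).symm⟩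
    rw [len] at hv
    change sec (a.1 * g.1 * a.1⁻¹) _ ∈ _
    rw [sec_conj a.1 g.1 (St_fix hg.1 hv.le)]
    exact conj_K' (sec_Gam a.2 u) (hg.2 u hv)⟩⟩
  rf := R_fi
  rs _ _ hg := hg.1
  r0 n h := by
    obtain ⟨s, hs⟩ := D.exists_ne_one
    let u := List.replicate n D.o0
    have hu : u.length = n := by simp [u]
    have h1 : loc u (root s) ∈ D.R n := ⟨hu ▸ loc_St _ _, fun w hw => by
      by_cases h : w = u
      · rw [h, sec_loc]; exact root_K' s
      · rw [sec_loc_ne _ (hw.trans hu.symm) h]; exact one_mem _⟩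
    have h2 : (⟨_, K_le (K'_le (R_le n h1))⟩ : D.Gam) ∈ D.RG n := h1
    rw [h, Subgroup.mem_bot, Subtype.ext_iff] at h2
    have h3 := sec_loc u (root s : Po X S)
    rw [show loc u (root s) = 1 from h2] at h3
    exact hs (congrFun h3 []).symm
  key M hM n h r hr := by
    obtain ⟨g, hg, hn⟩ := SetLike.not_le_iff_exists.1 h
    obtain ⟨v, hv, x, hx⟩ : ∃ v : List X, v.length < n ∧ ∃ x : X, g.1 v • x ≠ x := by
      by_contra hh
      push Not at hh
      exact hn fun v hv => D.faith _ (hh v hv)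
    have h1 := R_anti (show v.length + 1 ≤ n from hv) hr
    have h2 : r.1 ∈ M.map D.Gam.subtype := decomp _ h1.1 fun u hu => by
      obtain ⟨k, hk, rfl⟩ := lev_trans (D := D) (x :: v) u (by simp [hu])
      refine K'_map (loc _) (fun a ha b hb => ?_) (h1.2 _ hu)
      rw [← map_commutatorElement]
      have h3 := hM.conj_mem g hg ⟨k, K_le hk⟩
      refine grig (g := k * g.1 * k⁻¹) ?_ ⟨⁅⁅(⟨_, K_le (loc_K ha _)⟩ : D.Gam), _⁆,
        (⟨_, K_le (loc_K hb _)⟩ : D.Gam)⁆, Subgroup.commutator_le_left M ⊤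
          (Subgroup.commutator_mem_commutator (Subgroup.commutator_le_right ⊤ M
            (Subgroup.commutator_mem_commutator trivial h3)) trivial), rfl⟩
      rw [mul_smul, inv_smul_smul, mul_smul, Ne, smul_left_cancel_iff]
      exact fun hh => hx (List.cons.inj hh).1
    exact (Subgroup.mem_map_iff_mem D.Gam.subtype_injective).1 h2

theorem fg : Group.FG D.Gam := by
  refine (Group.fg_iff_subgroup_fg _).2 ((Subgroup.fg_iff _).2 ⟨_, rfl, Set.Finite.union ?_
    (Set.finite_range _)⟩)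
  refine ((Set.finite_range root).union (Set.finite_range fun p : S × S => D.dir p.1 p.2)).subset ?_
  rintro g (⟨s, rfl⟩ | ⟨β, γ, -, rfl⟩)
  exacts [Or.inl ⟨s, rfl⟩, Or.inr ⟨(β, γ), rfl⟩]

theorem branch : IsBranch D.Gam := by
  refine ⟨List X, inferInstance, List.length, List.tail, fun v w hv hw => ?_, ⟨[], rfl⟩,
    fun w hw => ?_, fun w hw => ?_, List.finite_length_eq X,
    fun v => ⟨D.o0 :: v, D.o1 :: v, by simp [D.h01], rfl, rfl, rfl, rfl⟩,
    fun g w => ⟨len g.1 w, by cases w <;> rfl⟩, fun g h => ?_, fun v w h => ?_, fun n => ?_⟩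
  · rw [List.length_eq_zero_iff.1 hv, List.length_eq_zero_iff.1 hw]
  · rw [List.length_eq_zero_iff.1 hw]; rfl
  · simp; omega
  · exact Subtype.ext (funext fun v => D.faith _ fun x => (List.cons.inj (h (x :: v))).1)
  · obtain ⟨g, hg, h1⟩ := lev_trans (D := D) v w h
    exact ⟨⟨g, K_le hg⟩, h1⟩
  · have := R_fi (D := D) n
    refine Subgroup.finiteIndex_of_le (H := (D.R n).subgroupOf D.Gam) fun r hr => ?_
    have h1 : ∀ w u : List X, List.tail^[w.length] (w ++ u) = u := fun w u => by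
      induction w with
      | nil => rfl
      | cons x w ih => exact ih
    refine (Subgroup.mem_map_iff_mem D.Gam.subtype_injective).1 (decomp _ hr.1 fun u hu =>
      ⟨⟨_, K_le (loc_K (K'_le (hr.2 u hu)) u)⟩, Subgroup.subset_closure ⟨u, hu, fun w hw =>
        loc_fix _ w ?_⟩, rfl⟩)
    rintro ⟨t, rfl⟩
    exact hw _ (h1 t u)

end Dat

end Pool.Agent.P.MP_042d8e_al
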