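import Pool.Agent.P.MP_042d8e_al.Tree

/-! Rooted, directed and diagonal automorphisms; the group `K` and the character `chi`. -/

set_option autoImplicit false
set_option linter.unusedSectionVars false

open scoped commutatorElement

namespace Pool.Agent.P.MP_042d8e_al

open Po

/-- the data of the construction -/
structure Dat (X S Q : Type) [Group S] [MulAction S X] [Group Q] where
  o0 : X
  o1 : X
  o2 : X
  σ : S
  ι : Q →* S
  h01 : o0 ≠ o1
  h02 : o0 ≠ o2
  h12 : o1 ≠ o2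
  σσ : σ * σ = 1
  inj : Function.Injective ι
  f0 : ∀ q, ι q • o0 = o0
  f1 : ∀ q, ι q • o1 = o1
  f2 : ∀ q, ι q • o2 = o2
  cm : ∀ q, ι q * σ = σ * ι q
  perf : commutator S = ⊤
  cyc : ∀ x y z : X, x ≠ y → x ≠ z → y ≠ z → ∃ τ : S, τ • x = y ∧ τ • y = z ∧ τ • z = x ∧
    ∀ p, p ≠ x → p ≠ y → p ≠ z → τ • p = p
  big : ∀ x y z : X, ∃ w, w ≠ x ∧ w ≠ y ∧ w ≠ z
  faith : ∀ s : S, (∀ x : X, s • x = x) → s = 1

variable {X S Q : Type} [Group S] [MulAction S X] [Group Q] [DecidableEq X] [DecidableEq S]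
  [Fintype X]

/-- rooted automorphisms -/
def root : S →* Po X S := MonoidHom.mk' (fun s v => if v = [] then s else 1) fun a b =>
  funext fun v => by
    rw [mul_app]
    cases v <;> simp

/-- automorphisms acting letter by letter -/
def diag : S →* Po X S := MonoidHom.mk' (fun s _ => s) fun _ _ => rfl

theorem root_app (s : S) (v : List X) : (root s : Po X S) v = if v = [] then s else 1 := rfl
theorem diag_app (s : S) (v : List X) : (diag s : Po X S) v = s := rfl

@[simp] theorem sec_root (s : S) (x : X) : sec (root s : Po X S) [x] = 1 :=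
  funext fun w => by simp [sec, root_app]

theorem root_smul (s : S) (x : X) : (root s : Po X S) • [x] = [s • x] := rfl

theorem conj_diag (s : S) (g : Po X S) (v : List X) :
    (diag s * g * (diag s)⁻¹ : Po X S) v = s * g ((diag s⁻¹ : Po X S) • v) * s⁻¹ := by
  rw [← map_inv]; rfl

theorem diag_all {s : S} {o : X} (h : s • o = o) :
    ∀ u : List X, (∀ y ∈ (diag s : Po X S) • u, y = o) ↔ ∀ y ∈ u, y = o
  | [] => by simp
  | x :: u => by
    have := diag_all h u
    simp only [smul_cons, List.forall_mem_cons, this, diag_app]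
    rw [← h, smul_left_cancel_iff, h]

namespace Dat

variable (D : Dat X S Q)

/-- directed automorphisms -/
def dir (β γ : S) : Po X S
  | [] => 1
  | x :: u => if ∀ y ∈ u, y = D.o0 then (if x = D.o1 then β else if x = D.o2 then γ else 1) else 1

theorem dir_St (β γ : S) : D.dir β γ ∈ St 1 := fun v hv => by
  obtain rfl : v = [] := List.length_eq_zero_iff.1 (by omega)
  rfl

theorem sec_dir (β γ : S) (x : X) : sec (D.dir β γ) [x] = if x = D.o0 then D.dir β γ else
    if x = D.o1 then root β else if x = D.o2 then root γ else 1 := by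
  funext w
  have h1 := D.h01
  have h2 := D.h02
  cases w <;> split_ifs <;> simp_all [sec, dir, root_app, or_imp, forall_and]

theorem dir_mul (β γ β' γ' : S) : D.dir β γ * D.dir β' γ' = D.dir (β * β') (γ * γ') := by
  funext v
  induction v using List.reverseRecOn with
  | nil => exact one_mul _
  | append_singleton w x ih =>
    change sec (D.dir β γ * D.dir β' γ') [x] w = sec (D.dir (β * β') (γ * γ')) [x] w
    rw [sec_mul_St _ (D.dir_St _ _) (by simp), sec_dir, sec_dir, sec_dir]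
    split_ifs
    · exact ih
    · rw [map_mul]
    · rw [map_mul]
    · rw [mul_one]

theorem dir_one : D.dir 1 1 = 1 := funext fun v => by cases v <;> simp [dir]

/-- directed automorphisms with one active letter -/
def dirH : S →* Po X S := MonoidHom.mk' (fun β => D.dir β 1) fun a b => by rw [dir_mul, mul_one]

theorem conj_dir (q : Q) (β γ : S) : diag (D.ι q) * D.dir β γ * (diag (D.ι q))⁻¹ =
    D.dir (D.ι q * β * (D.ι q)⁻¹) (D.ι q * γ * (D.ι q)⁻¹) := by
  funext v
  rw [conj_diag, ← map_inv]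
  cases v with
  | nil => simp [dir]
  | cons x u =>
    have h1 : D.ι q⁻¹ • x = D.o1 ↔ x = D.o1 := by rw [← D.f1 q⁻¹, smul_left_cancel_iff, D.f1]
    have h2 : D.ι q⁻¹ • x = D.o2 ↔ x = D.o2 := by rw [← D.f2 q⁻¹, smul_left_cancel_iff, D.f2]
    simp only [smul_cons, dir, diag_all (D.f0 q⁻¹), diag_app, h1, h2]
    split_ifs <;> simp

theorem conj_root (q s : S) : diag q * (root s : Po X S) * (diag q)⁻¹ = root (q * s * q⁻¹) := by
  funext v
  rw [conj_diag]
  cases v <;> simp [root_app]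

/-- the nucleus -/
def Nu (g : Po X S) : Prop := (∃ s, g = root s) ∨ ∃ β γ, (γ = 1 ∨ γ = D.σ) ∧ g = D.dir β γ

/-- parity of an element of the nucleus -/
def e (g : Po X S) : ZMod 2 := if g [D.o2] = 1 then 0 else 1

variable {D}

theorem nu_root (s : S) : D.Nu (root s) := Or.inl ⟨s, rfl⟩
theorem nu_one : D.Nu 1 := Or.inl ⟨1, (map_one _).symm⟩

theorem nu_inv {g : Po X S} (h : D.Nu g) : D.Nu g⁻¹ := by
  rcases h with ⟨s, rfl⟩ | ⟨β, γ, h, rfl⟩
  · exact Or.inl ⟨s⁻¹, (map_inv _ _).symm⟩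
  · refine Or.inr ⟨β⁻¹, γ, h, inv_eq_of_mul_eq_one_right ?_⟩
    rw [dir_mul, mul_inv_cancel, ← D.dir_one]
    rcases h with rfl | rfl
    · rw [mul_one]
    · rw [D.σσ]

@[simp] theorem e_root (s : S) : D.e (root s) = 0 := by simp [e, root_app]
@[simp] theorem e_one : D.e 1 = 0 := by simp [e]

theorem e_dir (β γ : S) : D.e (D.dir β γ) = if γ = 1 then 0 else 1 := by
  simp [e, dir, D.h12.symm]

theorem nu_sec {g : Po X S} (h : D.Nu g) :
    (∀ x, D.Nu (sec g [x])) ∧ ∑ x, D.e (sec g [x]) = D.e g := by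
  rcases h with ⟨s, rfl⟩ | ⟨β, γ, h, rfl⟩
  · simp [nu_one]
  · constructor
    · intro x
      rw [sec_dir]
      split_ifs
      exacts [Or.inr ⟨β, γ, h, rfl⟩, nu_root _, nu_root _, nu_one]
    · rw [Finset.sum_eq_single D.o0, sec_dir, if_pos rfl]
      · intro x _ hx
        rw [sec_dir, if_neg hx]
        split_ifs <;> simp
      · simp

theorem sec_mul1 (g h : Po X S) (x : X) : sec (g * h) [x] = sec g [h [] • x] * sec h [x] :=
  sec_mul g h [x]

theorem nu_mul {g h : Po X S} (hg : D.Nu g) (hh : D.Nu h) :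
    (∀ x, D.Nu (sec (g * h) [x])) ∧ ∑ x, D.e (sec (g * h) [x]) = D.e g + D.e h := by
  rcases hh with ⟨s, rfl⟩ | ⟨β, γ, h, rfl⟩
  · simp only [sec_mul1, sec_root, mul_one, e_root, add_zero]
    exact ⟨fun x => (nu_sec hg).1 _,
      (Equiv.sum_comp (MulAction.toPerm _) fun x => D.e (sec g [x])).trans (nu_sec hg).2⟩
  · rcases hg with ⟨s, rfl⟩ | ⟨β', γ', h', rfl⟩
    · simp only [sec_mul1, sec_root, one_mul, e_root, zero_add]
      exact nu_sec (Or.inr ⟨β, γ, h, rfl⟩)
    · have h1 : γ' * γ = 1 ∨ γ' * γ = D.σ := by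
        rcases h with rfl | rfl <;> rcases h' with rfl | rfl <;> simp [D.σσ]
      rw [dir_mul]
      refine ⟨(nu_sec (Or.inr ⟨_, _, h1, rfl⟩)).1, (nu_sec (Or.inr ⟨_, _, h1, rfl⟩)).2.trans ?_⟩
      simp only [e_dir]
      have h2 : ∀ a : ZMod 2, a + a = 0 := by decide
      rcases h with rfl | rfl <;> rcases h' with rfl | rfl
      · rw [mul_one, if_pos rfl, add_zero]
      · rw [mul_one, if_pos (rfl : (1 : S) = 1), add_zero]
      · rw [one_mul, if_pos (rfl : (1 : S) = 1), zero_add]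
      · rw [D.σσ, if_pos rfl, h2]

variable (D)

/-- all sections at level `n` lie in the nucleus -/
def Tm : ℕ → Po X S → Prop
  | 0, g => D.Nu g
  | n + 1, g => ∀ x, Tm n (sec g [x])

/-- total parity of the sections at level `n` -/
def ch : ℕ → Po X S → ZMod 2
  | 0, g => D.e g
  | n + 1, g => ∑ x, ch n (sec g [x])

open Classical in
/-- the character -/
noncomputable def chi (g : Po X S) : ZMod 2 := if h : ∃ n, D.Tm n g then D.ch h.choose g else 0

/-- the group generated by rooted and directed automorphisms -/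
def K : Subgroup (Po X S) := Subgroup.closure {g | D.Nu g}

variable {D}

theorem tm_succ : ∀ (n : ℕ) {g : Po X S}, D.Tm n g → D.Tm (n + 1) g ∧ D.ch (n + 1) g = D.ch n g
  | 0, _, h => nu_sec h
  | n + 1, _, h => ⟨fun x => (tm_succ n (h x)).1, Finset.sum_congr rfl fun x _ => (tm_succ n (h x)).2⟩

theorem tm_le {n m : ℕ} (h : n ≤ m) {g : Po X S} (hg : D.Tm n g) :
    D.Tm m g ∧ D.ch m g = D.ch n g := by
  induction m, h using Nat.le_induction with
  | base => exact ⟨hg, rfl⟩
  | succ m _ ih => exact ⟨(tm_succ m ih.1).1, (tm_succ m ih.1).2.trans ih.2⟩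

theorem tm_mul : ∀ (n : ℕ) {g h : Po X S}, D.Tm n g → D.Tm n h →
    D.Tm (n + 1) (g * h) ∧ D.ch (n + 1) (g * h) = D.ch n g + D.ch n h
  | 0, _, _, hg, hh => nu_mul hg hh
  | n + 1, g, h, hg, hh => by
    refine ⟨fun x => sec_mul1 g h x ▸ (tm_mul n (hg _) (hh x)).1, ?_⟩
    rw [ch, ch, ch, ← Equiv.sum_comp (MulAction.toPerm (h [])) fun x => D.ch n (sec g [x]),
      ← Finset.sum_add_distrib]
    exact Finset.sum_congr rfl fun x _ => sec_mul1 g h x ▸ (tm_mul n (hg _) (hh x)).2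

theorem chi_eq {n : ℕ} {g : Po X S} (h : D.Tm n g) : D.chi g = D.ch n g := by
  have h0 : ∃ n, D.Tm n g := ⟨n, h⟩
  rw [chi, dif_pos h0, ← (tm_le (le_max_left _ n) h0.choose_spec).2, (tm_le (le_max_right _ n) h).2]

theorem nu_K {g : Po X S} (h : D.Nu g) : g ∈ D.K := Subgroup.subset_closure h

theorem K_ind {P : Po X S → Prop} (h1 : ∀ g, D.Nu g → P g)
    (h2 : ∀ a b, a ∈ D.K → b ∈ D.K → P a → P b → P (a * b)) {g : Po X S} (hg : g ∈ D.K) : P g :=
  Subgroup.closure_induction'' (p := fun g _ => P g) h1 (fun _ h => h1 _ (nu_inv h)) (h1 _ nu_one) h2 hg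

theorem K_tm {g : Po X S} (hg : g ∈ D.K) : ∃ n, D.Tm n g :=
  K_ind (P := fun g => ∃ n, D.Tm n g) (fun _ h => ⟨0, h⟩) (fun _ _ _ _ ⟨n, hn⟩ ⟨m, hm⟩ =>
    ⟨_, (tm_mul _ (tm_le (le_max_left n m) hn).1 (tm_le (le_max_right n m) hm).1).1⟩) hg

theorem chi_mul {g h : Po X S} (hg : g ∈ D.K) (hh : h ∈ D.K) :
    D.chi (g * h) = D.chi g + D.chi h := by
  obtain ⟨n, hn⟩ := K_tm hg
  obtain ⟨m, hm⟩ := K_tm hh
  have h1 := (tm_le (le_max_left n m) hn).1
  have h2 := (tm_le (le_max_right n m) hm).1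
  rw [chi_eq (tm_mul _ h1 h2).1, (tm_mul _ h1 h2).2, chi_eq h1, chi_eq h2]

theorem chi_sum {g : Po X S} (hg : g ∈ D.K) : D.chi g = ∑ x, D.chi (sec g [x]) := by
  obtain ⟨n, hn⟩ := K_tm hg
  have h1 := (tm_succ n hn).1
  rw [chi_eq h1, ch]
  exact Finset.sum_congr rfl fun x _ => (chi_eq (h1 x)).symm

theorem chi_nu {g : Po X S} (h : D.Nu g) : D.chi g = D.e g := chi_eq (n := 0) h

@[simp] theorem chi_one : D.chi 1 = 0 := (chi_nu nu_one).trans e_one

theorem chi_inv {g : Po X S} (hg : g ∈ D.K) : D.chi g⁻¹ = D.chi g := by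
  have h := chi_mul hg (inv_mem hg)
  rw [mul_inv_cancel, chi_one] at h
  revert h
  generalize D.chi g⁻¹ = a, D.chi g = b
  revert a b
  decide

theorem chi_conj {a g : Po X S} (ha : a ∈ D.K) (hg : g ∈ D.K) : D.chi (a * g * a⁻¹) = D.chi g := by
  rw [chi_mul (mul_mem ha hg) (inv_mem ha), chi_mul ha hg, chi_inv ha]
  generalize D.chi a = a, D.chi g = b
  revert a b
  decide

theorem sec_K {g : Po X S} (hg : g ∈ D.K) : ∀ u, sec g u ∈ D.K := by
  have h : ∀ g ∈ D.K, ∀ x, sec g [x] ∈ D.K := fun g hg =>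
    K_ind (P := fun g => ∀ x, sec g [x] ∈ D.K) (fun _ h x => nu_K ((nu_sec h).1 x))
      (fun a b _ _ ha hb x => sec_mul1 a b x ▸ mul_mem (ha _) (hb x)) hg
  intro u
  induction u with
  | nil => rwa [sec_nil]
  | cons x u ih => exact sec_cons g x u ▸ h _ ih x

theorem trans (D : Dat X S Q) (x y : X) : ∃ τ : S, τ • x = y := by
  by_cases h : x = y
  · exact ⟨1, by simp [h]⟩
  · obtain ⟨z, h1, h2, -⟩ := D.big x y y
    exact (D.cyc x y z h h1.symm h2.symm).imp fun _ h => h.1

theorem perf_le (D : Dat X S Q) {G : Type} [Group G] (f : S →* G) {H : Subgroup G}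
    (h : ∀ a b, ⁅f a, f b⁆ ∈ H) (s : S) : f s ∈ H := by
  have : (⊤ : Subgroup S) ≤ H.comap f := by
    rw [← D.perf]
    exact Subgroup.commutator_le.2 fun a _ b _ => by
      rw [Subgroup.mem_comap, map_commutatorElement]; exact h a b
  exact this trivial

theorem conj_loc1 (τ : S) (x : X) (k : Po X S) :
    root τ * loc [x] k * (root τ)⁻¹ = loc [τ • x] k := by
  rw [conj_loc, sec_root, root_smul]; simp

theorem loc_root_K (x : X) (s : S) : loc [x] (root s) ∈ D.K := by
  obtain ⟨z, z0, z1, z2⟩ := D.big D.o0 D.o1 D.o2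
  obtain ⟨τ, t0, -, -, t1⟩ := D.cyc D.o0 z D.o2 z0.symm D.h02 z2
  have t2 := t1 D.o1 D.h01.symm z1.symm D.h12
  have h1 : loc [D.o1] (root s) ∈ D.K := by
    have h2 : ∀ a b : S, loc [D.o1] (root ⁅a, b⁆) = ⁅D.dir a 1, root τ * D.dir b 1 * (root τ)⁻¹⁆ := by
      intro a b
      have s1 := D.dir_St a 1
      have s2 := (St_normal 1).conj_mem _ (D.dir_St b 1) (root τ)
      refine ext_St1 (loc_St [D.o1] _)
        (mul_mem (mul_mem (mul_mem s1 s2) (inv_mem s1)) (inv_mem s2)) fun x => ?_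
      obtain ⟨y, rfl⟩ : ∃ y, x = τ • y := ⟨τ⁻¹ • x, (smul_inv_smul τ x).symm⟩
      have s3 : sec (root τ * D.dir b 1 * (root τ)⁻¹) [τ • y] = sec (D.dir b 1) [y] := by
        rw [← root_smul, sec_conj _ _ (St_fix (D.dir_St b 1) (by simp)), sec_root]; simp
      rw [commutatorElement_def (D.dir a 1), sec_mul_St _ (inv_mem s2) (by simp),
        sec_mul_St _ (inv_mem s1) (by simp), sec_mul_St _ s2 (by simp), sec_inv_St s1 (by simp),
        sec_inv_St s2 (by simp), s3, sec_dir, sec_dir]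
      by_cases y1 : y = D.o1
      · rw [y1, t2, sec_loc, if_neg D.h01.symm, if_pos rfl, if_neg D.h01.symm, if_pos rfl,
          map_commutatorElement, commutatorElement_def]
      · have y2 : τ • y ≠ D.o1 := by rwa [← t2, Ne, smul_left_cancel_iff]
        rw [sec_loc_ne _ (by simp) (by simpa using y2), if_neg y2, if_neg y1]
        by_cases y0 : y = D.o0
        · simp [y0, t0, z0]
        · simp [y0]
    refine D.perf_le ((loc [D.o1]).comp root) (fun a b => ?_) s
    rw [← map_commutatorElement, MonoidHom.comp_apply, h2]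
    have h3 : ∀ a, D.dir a 1 ∈ D.K := fun a => nu_K (Or.inr ⟨_, _, Or.inl rfl, rfl⟩)
    have h4 := mul_mem (mul_mem (nu_K (D := D) (nu_root τ)) (h3 b)) (inv_mem (nu_K (nu_root τ)))
    exact mul_mem (mul_mem (mul_mem (h3 a) h4) (inv_mem (h3 a))) (inv_mem h4)
  obtain ⟨ρ, rfl⟩ := D.trans D.o1 x
  rw [← conj_loc1]
  exact mul_mem (mul_mem (nu_K (nu_root ρ)) h1) (inv_mem (nu_K (nu_root ρ)))

theorem loc_K {k : Po X S} (hk : k ∈ D.K) (u : List X) : loc u k ∈ D.K := by
  have h : ∀ x, ∀ k ∈ D.K, loc [x] k ∈ D.K := by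
    intro x k hk
    refine K_ind (P := fun k => loc [x] k ∈ D.K) ?_
      (fun a b _ _ ha hb => by rw [map_mul]; exact mul_mem ha hb) hk
    rintro g (⟨s, rfl⟩ | ⟨β, γ, h, rfl⟩)
    · exact loc_root_K x s
    · obtain ⟨ρ, rfl⟩ := D.trans D.o0 x
      rw [← conj_loc1]
      refine mul_mem (mul_mem (nu_K (nu_root ρ)) ?_) (inv_mem (nu_K (nu_root ρ)))
      have h1 : D.dir β γ = loc [D.o0] (D.dir β γ) * (loc [D.o1] (root β) * loc [D.o2] (root γ)) := by
        have s1 := mul_mem (loc_St [D.o1] (root β : Po X S)) (loc_St [D.o2] (root γ))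
        refine ext_St1 (D.dir_St _ _) (mul_mem (loc_St [D.o0] _) s1) fun y => ?_
        rw [sec_mul_St _ s1 (by simp), sec_mul_St _ (loc_St _ _) (by simp), sec_dir]
        have hl : ∀ (z : X) (k : Po X S), sec (loc [z] k) [y] = if y = z then k else 1 := by
          intro z k
          split_ifs with hz
          · rw [hz, sec_loc]
          · exact sec_loc_ne _ (by simp) (by simpa using hz)
        have := D.h01
        have := D.h02
        have := D.h12
        rw [hl, hl, hl]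
        split_ifs <;> simp_all
      rw [eq_mul_inv_of_mul_eq h1.symm]
      exact mul_mem (nu_K (Or.inr ⟨β, γ, h, rfl⟩))
        (inv_mem (mul_mem (loc_root_K _ _) (loc_root_K _ _)))
  induction u generalizing k with
  | nil => rwa [loc_nil]
  | cons x u ih => rw [loc_cons]; exact ih (h x k hk)

end Dat

end Pool.Agent.P.MP_042d8e_al
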