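import Pool.Agent.P.MP_042d8e_al.Cases

/-! The three families of examples. -/

set_option autoImplicit false

namespace Pool.Agent.P.MP_042d8e_al

open Cardinal Equiv

/-- data from an alternating group -/
def altDat {X Q : Type} [Fintype X] [DecidableEq X] [Group Q] (h5 : 5 ≤ Fintype.card X)
    (a b c : X) (hab : a ≠ b) (hac : a ≠ c) (hbc : b ≠ c) (σ : alternatingGroup X) (hσ : σ * σ = 1)
    (ι : Q →* alternatingGroup X) (hi : Function.Injective ι)
    (hf : ∀ q, ι q • a = a ∧ ι q • b = b ∧ ι q • c = c ∧ ι q * σ = σ * ι q) :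
    Dat X (alternatingGroup X) Q where
  o0 := a
  o1 := b
  o2 := c
  σ := σ
  ι := ι
  h01 := hab
  h02 := hac
  h12 := hbc
  σσ := hσ
  inj := hi
  f0 q := (hf q).1
  f1 q := (hf q).2.1
  f2 q := (hf q).2.2.1
  cm q := (hf q).2.2.2
  perf := commutator_alternatingGroup_eq_top (by simpa using h5)
  cyc x y z h1 h2 h3 := ⟨⟨swap x z * swap x y, by simp [Perm.mem_alternatingGroup, h1, h2]⟩,
    by simp [Subgroup.smul_def, swap_apply_of_ne_of_ne h1.symm h3],
    by simp [Subgroup.smul_def],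
    by simp [Subgroup.smul_def, swap_apply_of_ne_of_ne h2.symm h3.symm],
    fun p p1 p2 p3 => by simp [Subgroup.smul_def, swap_apply_of_ne_of_ne, p1, p2, p3]⟩
  big x y z := by
    obtain ⟨w, -, hw⟩ := Finset.exists_mem_notMem_of_card_lt_card (s := {x, y, z})
      (t := Finset.univ) (Finset.card_le_three.trans_lt (by rw [Finset.card_univ]; omega))
    exact ⟨w, by simpa [not_or] using hw⟩
  faith s h := Subtype.ext (Equiv.ext h)

/-- every finite group occurs -/
theorem exists_fin (Q : Type) [Group Q] [Finite Q] : ∃ (G : Type) (_ : Group G),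
    Group.FG G ∧ IsBranch G ∧ numClasses G = #{P : Subgroup Q // P.Normal} := by
  classical
  have := Fintype.ofFinite Q
  let ι : Q →* alternatingGroup (Fin 5 ⊕ Q × Bool) := MonoidHom.mk' (fun q =>
    ⟨Perm.sumCongr 1 (prodCongrLeft fun _ => Equiv.mulLeft q), by
      simp [Perm.mem_alternatingGroup, Perm.sign_sumCongr, Perm.sign_prodCongrLeft]⟩)
    fun a b => Subtype.ext (Equiv.ext fun x => by rcases x with x | ⟨x, y⟩ <;> simp)
  let D := altDat (by simp) (Sum.inl 0) (Sum.inl 1) (Sum.inl 2) (by simp) (by simp) (by simp) 1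
    (one_mul 1) ι (fun a b h => by
      simpa [ι] using congrArg (fun s : alternatingGroup _ => s.1 (Sum.inr (1, true))) h)
    fun q => ⟨rfl, rfl, rfl, by simp⟩
  exact ⟨D.Gam, inferInstance, D.fg, D.branch, Dat.num_fin rfl⟩

theorem exists_cyc (k : ℕ) : ∃ (Q : Type) (_ : Group Q), Finite Q ∧
    #{P : Subgroup Q // P.Normal} = (k + 1 : ℕ) := by
  let Q := Multiplicative (ZMod (2 ^ k))
  have hc : Nat.card Q = 2 ^ k := by simp [Q]
  have h1 : ∀ j : Fin (k + 1), Nat.card (powMonoidHom (2 ^ j.1) : Q →* Q).ker = 2 ^ j.1 := fun j => by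
    rw [IsCyclic.card_powMonoidHom_ker, hc, Nat.gcd_eq_right (pow_dvd_pow _ (by omega))]
  refine ⟨Q, inferInstance, inferInstance, ?_⟩
  rw [← Cardinal.mk_fin]
  refine (Cardinal.mk_congr (Equiv.ofBijective (fun j : Fin (k + 1) =>
    ⟨(powMonoidHom (2 ^ j.1) : Q →* Q).ker, inferInstance⟩) ⟨fun a b h => ?_, fun P => ?_⟩)).symm
  · have h2 := h1 a
    rw [Subtype.mk.inj h, h1 b] at h2
    exact Fin.ext (Nat.pow_right_injective le_rfl h2).symm
  · obtain ⟨j, hj, h2⟩ := (Nat.dvd_prime_pow Nat.prime_two).1 (hc ▸ P.1.card_subgroup_dvd_card)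
    refine ⟨⟨j, by omega⟩, Subtype.ext (Subgroup.eq_of_le_of_card_ge (fun g hg => ?_) ?_).symm⟩
    · exact congrArg Subtype.val (h2 ▸ pow_card_eq_one' (x := (⟨g, hg⟩ : P.1)))
    · exact (h1 ⟨j, by omega⟩).le.trans h2.ge

theorem exists_aleph0 : ∃ (G : Type) (_ : Group G), Group.FG G ∧ IsBranch G ∧ numClasses G = ℵ₀ := by
  let D := altDat (X := Fin 6) (Q := PUnit) (by simp) 0 1 2 (by decide) (by decide) (by decide)
    ⟨swap 0 1 * swap 2 3, Perm.mem_alternatingGroup.2 (by decide)⟩
    (by decide) 1 (Function.injective_of_subsingleton _) (by simp)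
  refine ⟨D.Gam, inferInstance, D.fg, D.branch, ?_⟩
  have := Dat.infinite_sys (D := D) (by decide)
  have := Dat.countable_sys (D := D) (by decide)
  rw [D.fil.num, Cardinal.mk_eq_aleph0]

theorem exists_continuum :
    ∃ (G : Type) (_ : Group G), Group.FG G ∧ IsBranch G ∧ numClasses G = 𝔠 := by
  let D := altDat (X := Fin 5) (Q := PUnit) (by simp) 0 1 2 (by decide) (by decide) (by decide)
    ⟨swap 0 1 * swap 2 3, Perm.mem_alternatingGroup.2 (by decide)⟩
    (by decide) 1 (Function.injective_of_subsingleton _) (by simp)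
  refine ⟨D.Gam, inferInstance, D.fg, D.branch, (dichotomy D.fg).resolve_left fun h => ?_⟩
  rw [D.fil.num] at h
  exact Dat.uncountable_sys (D := D) (by decide) (by decide) (Cardinal.mk_le_aleph0_iff.1 h)

end Pool.Agent.P.MP_042d8e_al
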