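import Pool.Agent.P.MP_042d8e_al.Defs

/-! The number of classes is positive, and countable or the continuum. -/

set_option autoImplicit false

namespace Pool.Agent.P.MP_042d8e_al

open Cardinal

variable {G : Type} [Group G]

theorem countable_of_fg (h : Group.FG G) : Countable G := by
  obtain ⟨α, _, φ, hφ⟩ := Group.fg_iff_exists_freeGroup_hom_surjective_finite.1 h
  exact hφ.countable

theorem countable_fi (h : Group.FG G) : {N : Subgroup G | N.FiniteIndex}.Countable := by
  have := countable_of_fg h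
  refine (Set.countable_range fun s : Finset G => Subgroup.closure (s : Set G)).mono ?_
  intro N hN
  have : N.FiniteIndex := hN
  exact (Group.fg_iff_subgroup_fg N).1 inferInstance

theorem pos_of_branch (h : IsBranch G) : 0 < numClasses G := by
  obtain ⟨V, _, lev, par, -, -, -, -, hfin, -, hact, hf, -, -⟩ := h
  have hS : ∀ n, {v : V | lev v ≤ n}.Finite := fun n =>
    ((Set.finite_Iic n).biUnion fun i _ => hfin i).subset fun v hv =>
      Set.mem_biUnion (x := lev v) hv rfl
  let M : ℕ → Subgroup G := fun n => ⨅ v : {v : V | lev v ≤ n}, MulAction.stabilizer G v.1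
  have hM : ∀ n g, g ∈ M n ↔ ∀ v, lev v ≤ n → g • v = v := by
    intro n g
    simp [M, Subgroup.mem_iInf]
  refine Cardinal.mk_ne_zero_iff.2 ⟨Quotient.mk _ ⟨M, ?_, fun n => ⟨⟨?_⟩, ?_⟩, ?_⟩⟩ |>.pos
  · intro a b hab g hg
    rw [hM] at hg ⊢
    exact fun v hv => hg v (hv.trans hab)
  · intro g hg x
    rw [hM] at hg ⊢
    intro v hv
    rw [mul_smul, mul_smul, hg _ (by rw [(hact _ _).1]; exact hv), smul_inv_smul]
  · have := (hS n).to_subtype
    refine Subgroup.finiteIndex_iInf fun v => ⟨?_⟩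
    rw [MulAction.index_stabilizer]
    refine Set.ncard_ne_zero_of_mem (MulAction.mem_orbit_self v.1) ((hfin (lev v.1)).subset ?_)
    rintro _ ⟨g, rfl⟩
    exact (hact g v.1).1
  · rw [eq_bot_iff]
    intro g hg
    exact hf g fun v => (hM _ g).1 (Subgroup.mem_iInf.1 hg (lev v)) v le_rfl

theorem dichotomy (h : Group.FG G) : numClasses G ≤ ℵ₀ ∨ numClasses G = 𝔠 := by
  classical
  have := countable_of_fg h
  let N := {N : Subgroup G // N.Normal ∧ N.FiniteIndex}
  have hN : {N : Subgroup G | N.Normal ∧ N.FiniteIndex}.Countable :=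
    (countable_fi h).mono fun _ hN => hN.2
  have : Countable N := hN.to_subtype
  let s : Set (N → Prop) := {F | (∃ a, F a) ∧ (∀ a b, a.1 ≤ b.1 → F a → F b) ∧
    (∀ a b c, a.1 ⊓ b.1 = c.1 → F a → F b → F c) ∧ ∀ g : G, g ≠ 1 → ∃ a, g ∉ a.1 ∧ F a}
  have hs : MeasurableSet s := by
    have h0 : ∀ a : N, Measurable fun F : N → Prop => F a := fun a => measurable_pi_apply a
    refine measurableSet_setOfPred.2 ((Measurable.exists h0).and (Measurable.and ?_ (Measurable.and ?_ ?_)))
    · exact .forall fun a => .forall fun b => measurable_const.imp ((h0 a).imp (h0 b))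
    · exact .forall fun a => .forall fun b => .forall fun c =>
        measurable_const.imp ((h0 a).imp ((h0 b).imp (h0 c)))
    · exact .forall fun g => measurable_const.imp (.exists fun a => measurable_const.and (h0 a))
  let φ : NT G → s := fun M => ⟨fun a => ∃ i, M.1 i ≤ a.1, ⟨⟨M.1 0, M.2.2.1 0⟩, 0, le_rfl⟩,
    fun a b hab ⟨i, hi⟩ => ⟨i, hi.trans hab⟩,
    fun a b c hc ⟨i, hi⟩ ⟨j, hj⟩ => ⟨max i j, hc ▸ le_inf ((M.2.1 (le_max_left _ _)).trans hi)
      ((M.2.1 (le_max_right _ _)).trans hj)⟩,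
    fun g hg => by
      by_contra hh
      refine hg (Subgroup.mem_bot.1 (M.2.2.2 ▸ Subgroup.mem_iInf.2 fun i => ?_))
      by_contra hi
      exact hh ⟨⟨M.1 i, M.2.2.1 i⟩, hi, i, le_rfl⟩⟩
  have hφ : ∀ M M', φ M = φ M' ↔ (eqvNT G).r M M' := by
    intro M M'
    constructor
    · intro hh
      have h1 : ∀ a : N, (∃ i, M.1 i ≤ a.1) ↔ ∃ i, M'.1 i ≤ a.1 := fun a =>
        iff_of_eq (congrFun (congrArg Subtype.val hh) a)
      exact ⟨fun i => (h1 ⟨M.1 i, M.2.2.1 i⟩).1 ⟨i, le_rfl⟩,
        fun i => (h1 ⟨M'.1 i, M'.2.2.1 i⟩).2 ⟨i, le_rfl⟩⟩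
    · rintro ⟨h1, h2⟩
      refine Subtype.ext (funext fun a => propext ⟨?_, ?_⟩)
      · rintro ⟨i, hi⟩
        exact (h1 i).imp fun j hj => hj.trans hi
      · rintro ⟨i, hi⟩
        exact (h2 i).imp fun j hj => hj.trans hi
  have hsurj : Function.Surjective φ := by
    rintro ⟨F, h0, h1, h2, h3⟩
    obtain ⟨e, he⟩ := (Set.to_countable {a | F a}).exists_eq_range h0
    have hFe : ∀ i, F (e i) := fun i => (he ▸ Set.mem_range_self i : e i ∈ {a | F a})
    let M : ℕ → N := fun n => Nat.rec (e 0) (fun i a => ⟨a.1 ⊓ (e (i + 1)).1,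
      by have := a.2.1; have := (e (i + 1)).2.1; infer_instance,
      by have := a.2.2; have := (e (i + 1)).2.2; infer_instance⟩) n
    have hF : ∀ n, F (M n) := by
      intro n
      induction n with
      | zero => exact hFe 0
      | succ n ih => exact h2 _ _ _ rfl ih (hFe _)
    have hle : ∀ n, (M n).1 ≤ (e n).1 := by
      intro n
      cases n with
      | zero => exact le_rfl
      | succ n => exact inf_le_right
    refine ⟨⟨fun n => (M n).1, antitone_nat_of_succ_le fun n => inf_le_left, fun n => (M n).2, ?_⟩, ?_⟩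
    · rw [eq_bot_iff]
      intro g hg
      by_contra hh
      obtain ⟨a, ha, hFa⟩ := h3 g hh
      obtain ⟨i, rfl⟩ : a ∈ Set.range e := he ▸ hFa
      exact ha (hle i (Subgroup.mem_iInf.1 hg i))
    · refine Subtype.ext (funext fun a => propext ⟨?_, fun hFa => ?_⟩)
      · rintro ⟨i, hi⟩
        exact h1 _ _ hi (hF i)
      · obtain ⟨i, rfl⟩ : a ∈ Set.range e := he ▸ hFa
        exact ⟨i, hle i⟩
  have hc : numClasses G = #s := by
    refine Cardinal.mk_congr (Equiv.ofBijective
      (Quotient.lift φ fun a b hab => (hφ a b).2 hab) ⟨?_, ?_⟩)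
    · rintro ⟨a⟩ ⟨b⟩ hab
      exact Quotient.sound ((hφ a b).1 hab)
    · intro x
      obtain ⟨M, rfl⟩ := hsurj x
      exact ⟨Quotient.mk _ M, rfl⟩
  rw [hc]
  by_cases hcs : Countable s
  · exact Or.inl Cardinal.mk_le_aleph0
  · have := hs.standardBorel
    right
    rw [Cardinal.mk_congr (PolishSpace.measurableEquivNatBoolOfNotCountable hcs).toEquiv]
    simp

end Pool.Agent.P.MP_042d8e_al
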